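import Pool.Agent.T9h56.TG.Coef

/-!
# Common small values of coprime polynomials
-/

set_option autoImplicit false

namespace Pool.Agent.T9h56.TG

open Polynomial Filter Topology

noncomputable section

variable {N n : ℕ}

theorem vl_mul (f g : MvPolynomial (Fin N) ℤ) (k : Fin N → Fin n) : vl (f * g) k = vl f k * vl g k :=
  map_mul _ _ _

theorem vl_add (f g : MvPolynomial (Fin N) ℤ) (k : Fin N → Fin n) : vl (f + g) k = vl f k + vl g k :=
  map_add _ _ _

theorem vl_one (k : Fin N → Fin n) : vl (1 : MvPolynomial (Fin N) ℤ) k = 1 := map_one _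

theorem vl_C (c : ℤ) (k : Fin N → Fin n) : vl (MvPolynomial.C c : MvPolynomial (Fin N) ℤ) k = c := by
  unfold vl vh
  rw [MvPolynomial.eval₂Hom_C]
  rfl

/-- the sum of the absolute values of the coefficients -/
def len (f : MvPolynomial (Fin N) ℤ) : ℝ := ∑ e ∈ f.support, |((MvPolynomial.coeff e f : ℤ) : ℝ)|

theorem len_nonneg (f : MvPolynomial (Fin N) ℤ) : 0 ≤ len f :=
  Finset.sum_nonneg fun _ _ => abs_nonneg _

theorem norm_vl_le (f : MvPolynomial (Fin N) ℤ) (k : Fin N → Fin n) : ‖vl f k‖ ≤ len f := by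
  unfold vl vh len
  rw [MvPolynomial.coe_eval₂Hom, MvPolynomial.eval₂_eq]
  refine (norm_sum_le _ _).trans (Finset.sum_le_sum fun e _ => ?_)
  rw [norm_mul, norm_prod]
  have h1 : ∏ i ∈ e.support, ‖rt n (k i) ^ e i‖ = 1 := by
    refine Finset.prod_eq_one fun i _ => ?_
    rw [norm_pow, norm_rt, one_pow]
  rw [h1, mul_one]
  simp

/-- Three classes of the last coordinates. -/
theorem cnt_split3 (p : (Fin (N + 1) → Fin n) → Prop) (q1 q2 : (Fin N → Fin n) → Prop) {A B : ℝ}
    (h0 : ∀ k, ¬ q1 k → ¬ q2 k → ∀ j, ¬ p (Fin.cons j k))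
    (hA : ∀ k, ¬ q2 k → (cn (fun j : Fin n => p (Fin.cons j k)) : ℝ) ≤ A)
    (hB : ∀ k, (cn (fun j : Fin n => p (Fin.cons j k)) : ℝ) ≤ B) (hA0 : 0 ≤ A) (hB0 : 0 ≤ B) :
    (cnt p : ℝ) ≤ cnt q1 * A + cnt q2 * B := by
  classical
  rw [cnt_cons']
  push_cast
  have h1 : ∑ k : Fin N → Fin n, (cn (fun j : Fin n => p (Fin.cons j k)) : ℝ) ≤
      ∑ k : Fin N → Fin n, ((if q1 k then A else 0) + (if q2 k then B else 0)) := by
    refine Finset.sum_le_sum fun k _ => ?_
    by_cases h2 : q2 k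
    · rw [if_pos h2]
      have h3 : (0 : ℝ) ≤ if q1 k then A else 0 := by split_ifs <;> simp [hA0]
      linarith [hB k]
    · rw [if_neg h2, add_zero]
      by_cases h3 : q1 k
      · rw [if_pos h3]
        exact hA k h2
      · rw [if_neg h3]
        have h4 : cn (fun j : Fin n => p (Fin.cons j k)) = 0 := by
          rw [cn_eq, Finset.card_eq_zero, Finset.filter_eq_empty_iff]
          exact fun j _ => h0 k h3 h2 j
        rw [h4]
        simp
  refine h1.trans (le_of_eq ?_)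
  rw [Finset.sum_add_distrib, ← Finset.sum_filter, ← Finset.sum_filter, Finset.sum_const,
    Finset.sum_const, nsmul_eq_mul, nsmul_eq_mul]
  unfold cnt
  congr!

/-! ### elementary limits -/

theorem exp_small {c : ℝ} (hc : 0 < c) (d : ℕ) (a : ℝ) (ha : 0 < a) :
    ∀ᶠ n : ℕ in atTop, Real.exp (-(c * n)) * (n : ℝ) ^ d ≤ a := by
  have h1 := (Real.tendsto_pow_mul_exp_neg_atTop_nhds_zero d).comp
    (tendsto_natCast_atTop_atTop.const_mul_atTop (r := c) hc : Tendsto (fun n : ℕ => c * (n : ℝ))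
      atTop atTop)
  have h2 := h1.eventually_lt_const (show 0 < c ^ d * a by positivity)
  filter_upwards [h2] with n hn
  simp only [Function.comp] at hn
  rw [mul_pow, mul_assoc] at hn
  have h3 := (mul_lt_mul_iff_right₀ (show 0 < c ^ d by positivity)).1 hn
  linarith

theorem one_div_small (C : ℝ) {a : ℝ} (ha : 0 < a) : ∀ᶠ n : ℕ in atTop, C * (1 / (n : ℝ)) ≤ a := by
  have h1 : Tendsto (fun n : ℕ => C * (1 / (n : ℝ))) atTop (𝓝 (C * 0)) :=
    tendsto_one_div_atTop_nhds_zero_nat.const_mul C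
  rw [mul_zero] at h1
  filter_upwards [h1.eventually_lt_const ha] with n hn
  exact hn.le

/-! ### the statements -/

/-- two polynomials, one of them irreducible -/
def B3 (N : ℕ) : Prop := ∀ f g : MvPolynomial (Fin N) ℤ, Irreducible f → ¬ f ∣ g →
  ∀ ε : ℝ, 0 < ε → ∀ δ : ℝ, 0 < δ → ∃ η : ℝ, 0 < η ∧ ∀ᶠ n : ℕ in atTop,
    (cnt (fun k : Fin N → Fin n => ‖vl f k‖ ≤ Real.exp (-(ε * n)) ∧ ‖vl g k‖ ≤ η) : ℝ) * n ≤
      δ * n ^ N

/-- coprime families -/
def B4 (N : ℕ) : Prop := ∀ (m : ℕ) (a : Fin m → MvPolynomial (Fin N) ℤ),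
  (∀ q, (∀ i, q ∣ a i) → IsUnit q) → ∀ ε : ℝ, 0 < ε → ∀ δ : ℝ, 0 < δ → ∀ᶠ n : ℕ in atTop,
    (cnt (fun k : Fin N → Fin n => ∀ i, ‖vl (a i) k‖ ≤ Real.exp (-(ε * n))) : ℝ) * n ≤ δ * n ^ N

theorem not_small_of_unit {u : MvPolynomial (Fin N) ℤ} (hu : IsUnit u) {ε : ℝ} (hε : 0 < ε) :
    ∀ᶠ n : ℕ in atTop, ∀ k : Fin N → Fin n, ¬ ‖vl u k‖ ≤ Real.exp (-(ε * n)) := by
  obtain ⟨w, hw⟩ := hu.exists_right_inv
  have hL : 0 < len w + 1 := by
    have := len_nonneg w
    linarith
  filter_upwards [exp_small hε 0 (1 / (2 * (len w + 1))) (by positivity)] with n hn k hk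
  rw [pow_zero, mul_one] at hn
  have h1 : vl u k * vl w k = 1 := by rw [← vl_mul, hw, vl_one]
  have h2 : ‖vl u k‖ * ‖vl w k‖ = 1 := by rw [← norm_mul, h1, norm_one]
  have h3 : ‖vl w k‖ ≤ len w + 1 := (norm_vl_le w k).trans (by linarith)
  have h4 : ‖vl u k‖ * ‖vl w k‖ ≤ 1 / (2 * (len w + 1)) * (len w + 1) :=
    mul_le_mul (hk.trans hn) h3 (norm_nonneg _) (by positivity)
  have h5 : 1 / (2 * (len w + 1)) * (len w + 1) = 1 / 2 := by field_simp
  rw [h2, h5] at h4
  linarith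

theorem cnt_zero_le (p : (Fin N → Fin n) → Prop) (h : ∀ k, ¬ p k) {δ : ℝ} (hδ : 0 < δ) :
    (cnt p : ℝ) * n ≤ δ * n ^ N := by
  rw [cnt_eq_zero h]
  simp only [Nat.cast_zero, zero_mul]
  positivity

theorem B4_of_B3 (h3 : B3 N) : B4 N := by
  intro m a ha
  have key : ∀ b : MvPolynomial (Fin N) ℤ, b ≠ 0 → ∀ ε : ℝ, 0 < ε → ∀ δ : ℝ, 0 < δ →
      ∀ᶠ n : ℕ in atTop, (cnt (fun k : Fin N → Fin n => ‖vl b k‖ ≤ Real.exp (-(ε * n)) ∧
        ∀ i, ‖vl (a i) k‖ ≤ Real.exp (-(ε * n))) : ℝ) * n ≤ δ * n ^ N := by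
    intro b
    induction b using WfDvdMonoid.induction_on_irreducible with
    | zero => exact fun h => absurd rfl h
    | unit u hu =>
      intro _ ε hε δ hδ
      filter_upwards [not_small_of_unit hu hε] with n hn
      exact cnt_zero_le _ (fun k hk => hn k hk.1) hδ
    | mul b p hb hp ih =>
      intro _ ε hε δ hδ
      have ih' := ih hb (ε / 2) (by positivity) (δ / 2) (by positivity)
      obtain ⟨j, hj⟩ : ∃ j, ¬ p ∣ a j := by
        by_contra hcon
        push Not at hcon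
        exact hp.not_isUnit (ha p hcon)
      obtain ⟨η, hη, h3'⟩ := h3 p (a j) hp hj (ε / 2) (by positivity) (δ / 2) (by positivity)
      filter_upwards [ih', h3', exp_small (show 0 < ε / 2 by positivity) 0 η hη] with n h4 h5 h6
      rw [pow_zero, mul_one] at h6
      have hhalf : Real.exp (-(ε * n)) = Real.exp (-(ε / 2 * n)) * Real.exp (-(ε / 2 * n)) := by
        rw [← Real.exp_add]
        congr 1
        ring
      have hle : Real.exp (-(ε * n)) ≤ Real.exp (-(ε / 2 * n)) := by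
        refine Real.exp_le_exp.2 ?_
        have : (0 : ℝ) ≤ n := Nat.cast_nonneg n
        nlinarith
      have h7 : cnt (fun k : Fin N → Fin n => ‖vl (p * b) k‖ ≤ Real.exp (-(ε * n)) ∧
          ∀ i, ‖vl (a i) k‖ ≤ Real.exp (-(ε * n))) ≤
          cnt (fun k : Fin N → Fin n => ‖vl p k‖ ≤ Real.exp (-(ε / 2 * n)) ∧ ‖vl (a j) k‖ ≤ η) +
          cnt (fun k : Fin N → Fin n => ‖vl b k‖ ≤ Real.exp (-(ε / 2 * n)) ∧
            ∀ i, ‖vl (a i) k‖ ≤ Real.exp (-(ε / 2 * n))) := by
        refine cnt_or fun k hk => ?_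
        rcases le_or_gt ‖vl p k‖ (Real.exp (-(ε / 2 * n))) with h8 | h8
        · exact Or.inl ⟨h8, ((hk.2 j).trans hle).trans h6⟩
        · refine Or.inr ⟨?_, fun i => (hk.2 i).trans hle⟩
          by_contra hcon
          push Not at hcon
          have h9 := hk.1
          rw [vl_mul, norm_mul, hhalf] at h9
          have h10 : Real.exp (-(ε / 2 * n)) * Real.exp (-(ε / 2 * n)) < ‖vl p k‖ * ‖vl b k‖ :=
            mul_lt_mul'' h8 hcon (Real.exp_pos _).le (Real.exp_pos _).le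
          linarith
      have h8 : (cnt (fun k : Fin N → Fin n => ‖vl (p * b) k‖ ≤ Real.exp (-(ε * n)) ∧
          ∀ i, ‖vl (a i) k‖ ≤ Real.exp (-(ε * n))) : ℝ) ≤
          cnt (fun k : Fin N → Fin n => ‖vl p k‖ ≤ Real.exp (-(ε / 2 * n)) ∧ ‖vl (a j) k‖ ≤ η) +
          cnt (fun k : Fin N → Fin n => ‖vl b k‖ ≤ Real.exp (-(ε / 2 * n)) ∧
            ∀ i, ‖vl (a i) k‖ ≤ Real.exp (-(ε / 2 * n))) := by
        rw [← Nat.cast_add]
        exact Nat.cast_le.2 h7
      have h9 := mul_le_mul_of_nonneg_right h8 (Nat.cast_nonneg (α := ℝ) n)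
      rw [add_mul] at h9
      linarith
  intro ε hε δ hδ
  obtain ⟨j, hj⟩ : ∃ j, a j ≠ 0 := by
    by_contra hcon
    push Not at hcon
    have h1 : IsUnit (0 : MvPolynomial (Fin N) ℤ) := ha 0 fun i => by rw [hcon i]
    rw [isUnit_zero_iff] at h1
    exact zero_ne_one h1
  filter_upwards [key (a j) hj ε hε δ hδ] with n hn
  refine le_trans (mul_le_mul_of_nonneg_right ?_ (Nat.cast_nonneg _)) hn
  exact Nat.cast_le.2 (cnt_mono fun k hk => ⟨hk j, hk⟩)

/-! ### Bezout -/

theorem bezout {R : Type*} [CommRing R] [IsDomain R] [UniqueFactorizationMonoid R] {P Q : R[X]}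
    (hP : Irreducible P) (hd : P.natDegree ≠ 0) (hPQ : ¬ P ∣ Q) :
    ∃ ρ : R, ρ ≠ 0 ∧ ∃ U V : R[X], C ρ = U * P + V * Q := by
  have inj : Function.Injective (algebraMap R (FractionRing R)) :=
    IsFractionRing.injective R (FractionRing R)
  have hprim : P.IsPrimitive := hP.isPrimitive hd
  have h1 : Irreducible (P.map (algebraMap R (FractionRing R))) :=
    hprim.irreducible_iff_irreducible_map_fraction_map.1 hP
  have h2 : ¬ P.map (algebraMap R (FractionRing R)) ∣ Q.map (algebraMap R (FractionRing R)) :=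
    fun h => hPQ (hprim.dvd_of_fraction_map_dvd_fraction_map h)
  obtain ⟨u, v, huv⟩ := (Irreducible.coprime_iff_not_dvd h1).2 h2
  obtain ⟨b₁, hb₁, h3⟩ := IsLocalization.integerNormalization_spec (nonZeroDivisors R) u
  obtain ⟨b₂, hb₂, h4⟩ := IsLocalization.integerNormalization_spec (nonZeroDivisors R) v
  set U := IsLocalization.integerNormalization (nonZeroDivisors R) u
  set V := IsLocalization.integerNormalization (nonZeroDivisors R) v
  refine ⟨b₁ * b₂, mul_ne_zero (nonZeroDivisors.ne_zero hb₁) (nonZeroDivisors.ne_zero hb₂),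
    C b₂ * U, C b₁ * V, ?_⟩
  apply Polynomial.map_injective _ inj
  rw [Algebra.smul_def, Polynomial.algebraMap_apply] at h3 h4
  simp only [Polynomial.map_add, Polynomial.map_mul, Polynomial.map_C, map_mul, h3, h4]
  have h5 : C ((algebraMap R (FractionRing R)) b₂) *
      (C ((algebraMap R (FractionRing R)) b₁) * u) * Polynomial.map (algebraMap R (FractionRing R)) P +
      C ((algebraMap R (FractionRing R)) b₁) *
      (C ((algebraMap R (FractionRing R)) b₂) * v) * Polynomial.map (algebraMap R (FractionRing R)) Q =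
      C ((algebraMap R (FractionRing R)) b₁) * C ((algebraMap R (FractionRing R)) b₂) *
        (u * Polynomial.map (algebraMap R (FractionRing R)) P +
          v * Polynomial.map (algebraMap R (FractionRing R)) Q) := by ring
  rw [huv, mul_one] at h5
  exact h5.symm

/-- the main step, positive degree in the first variable -/
theorem step (h4 : B4 N) (f g : MvPolynomial (Fin (N + 1)) ℤ) (hf : Irreducible f) (hfg : ¬ f ∣ g)
    (hd : f.degreeOf 0 ≠ 0) (ε : ℝ) (hε : 0 < ε) (δ : ℝ) (hδ : 0 < δ) :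
    ∃ η : ℝ, 0 < η ∧ ∀ᶠ n : ℕ in atTop,
      (cnt (fun k : Fin (N + 1) → Fin n => ‖vl f k‖ ≤ Real.exp (-(ε * n)) ∧ ‖vl g k‖ ≤ η) : ℝ) * n ≤
        δ * n ^ (N + 1) := by
  set E := MvPolynomial.finSuccEquiv ℤ N with hE
  set P := E f with hP
  set Q := E g with hQ
  have hPi : Irreducible P := (MulEquiv.irreducible_iff E).2 hf
  have hPd : P.natDegree = f.degreeOf 0 := MvPolynomial.natDegree_finSuccEquiv f
  have hPQ : ¬ P ∣ Q := fun h => hfg ((map_dvd_iff E).1 h)
  have hprim : P.IsPrimitive := hPi.isPrimitive (by rw [hPd]; exact hd)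
  obtain ⟨ρ, hρ, U, V, hUV⟩ := bezout hPi (by rw [hPd]; exact hd) hPQ
  set d := f.degreeOf 0 with hdd
  set L : ℝ := len (E.symm U) + len (E.symm V) + 1 with hL
  have hL0 : 0 < L := by
    have := len_nonneg (E.symm U)
    have := len_nonneg (E.symm V)
    linarith
  -- the inequality for the elimination ideal
  have hρle : ∀ (n : ℕ) (j : Fin n) (k : Fin N → Fin n) (t : ℝ),
      ‖vl f (Fin.cons j k)‖ ≤ t → ‖vl g (Fin.cons j k)‖ ≤ t → ‖vl ρ k‖ ≤ L * t := by
    intro n j k t h1 h2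
    have h3 : vl ρ k = vl (E.symm U) (Fin.cons j k) * vl f (Fin.cons j k) +
        vl (E.symm V) (Fin.cons j k) * vl g (Fin.cons j k) := by
      rw [vl_cons, vl_cons, vl_cons, vl_cons, ← hE, AlgEquiv.apply_symm_apply,
        AlgEquiv.apply_symm_apply, ← hP, ← hQ, ← Polynomial.eval_mul, ← Polynomial.eval_mul,
        ← Polynomial.eval_add, ← Polynomial.map_mul, ← Polynomial.map_mul, ← Polynomial.map_add,
        ← hUV, Polynomial.map_C, Polynomial.eval_C]
      rfl
    rw [h3]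
    refine (norm_add_le _ _).trans ?_
    rw [norm_mul, norm_mul]
    have h4 := mul_le_mul (norm_vl_le (E.symm U) (Fin.cons j k : Fin (N + 1) → Fin n)) h1
      (norm_nonneg _) (len_nonneg _)
    have h5 := mul_le_mul (norm_vl_le (E.symm V) (Fin.cons j k : Fin (N + 1) → Fin n)) h2
      (norm_nonneg _) (len_nonneg _)
    have h6 : 0 ≤ t := (norm_nonneg _).trans h1
    rw [hL]
    nlinarith
  obtain ⟨C₁, α, hC₁, hα, hB1⟩ := card_le N ρ hρ
  set D : ℝ := 3 * d + 1 with hD
  have hD0 : 0 < D := by positivity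
  -- choice of `η`
  obtain ⟨t, ht0, ht1, htα⟩ : ∃ t : ℝ, 0 < t ∧ t ≤ 1 ∧ C₁ * t ^ α ≤ δ / (4 * D) := by
    have h1 : Tendsto (fun t : ℝ => C₁ * t ^ α) (𝓝[>] 0) (𝓝 (C₁ * 0)) := by
      refine Tendsto.const_mul _ ?_
      have h2 := (Real.continuousAt_rpow_const 0 α (Or.inr hα.le)).tendsto
      rw [Real.zero_rpow hα.ne'] at h2
      exact h2.mono_left nhdsWithin_le_nhds
    rw [mul_zero] at h1
    have h2 := h1.eventually_lt_const (show 0 < δ / (4 * D) by positivity)
    have h3 : ∀ᶠ t : ℝ in 𝓝[>] 0, t ≤ 1 := by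
      filter_upwards [Ioc_mem_nhdsGT (show (0 : ℝ) < 1 by norm_num)] with t ht
      exact ht.2
    obtain ⟨t, ⟨h4, h5⟩, h6⟩ := ((h2.and h3).and self_mem_nhdsWithin).exists
    exact ⟨t, h6, h5, h4.le⟩
  refine ⟨t / L, by positivity, ?_⟩
  have hB4 := h4 (d + 1) (fun i => P.coeff i) (fun q hq => by
    apply hprim
    rw [Polynomial.C_dvd_iff_dvd_coeff]
    intro i
    rcases Nat.lt_or_ge i (d + 1) with hi | hi
    · exact hq ⟨i, hi⟩
    · rw [Polynomial.coeff_eq_zero_of_natDegree_lt (by rw [hPd]; omega)]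
      exact dvd_zero _) (ε / 2) (by positivity) (δ / 4) (by positivity)
  filter_upwards [hB4, exp_small hε 0 (t / L) (by positivity),
    exp_small (show 0 < ε / 2 by positivity) d ((1 / 4) ^ d) (by positivity),
    one_div_small C₁ (show 0 < δ / (4 * D) by positivity), eventually_gt_atTop 0]
    with n hn4 hn1 hn2 hn3 hn0
  rw [pow_zero, mul_one] at hn1
  have hnR : (0 : ℝ) < n := by exact_mod_cast hn0
  have hn1' : (1 : ℝ) ≤ n := by exact_mod_cast hn0
  have hsplit := cnt_split3 (N := N) (n := n)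
    (fun k => ‖vl f k‖ ≤ Real.exp (-(ε * n)) ∧ ‖vl g k‖ ≤ t / L)
    (fun k => ‖vl ρ k‖ ≤ t)
    (fun k => ∀ i : Fin (d + 1), ‖vl (P.coeff i) k‖ ≤ Real.exp (-(ε / 2 * n)))
    (A := D) (B := n) (by
      intro k hk1 _ j hj
      apply hk1
      have h5 := hρle n j k (t / L) (hj.1.trans hn1) hj.2
      have h6 : L * (t / L) = t := by field_simp
      rwa [h6] at h5) (by
      intro k hk
      push Not at hk
      obtain ⟨i, hi⟩ := hk
      have h5 := card_small2 hn0 (P.map (vh k)) (d := d) (i := i) (s := Real.exp (-(ε / 2 * n)))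
        (t := Real.exp (-(ε * n))) (r := 1 / n)
        ((Polynomial.natDegree_map_le).trans hPd.le) (by positivity)
        (by rw [div_le_one hnR]; exact hn1') (Real.exp_pos _)
        (by rw [Polynomial.coeff_map]; exact hi) (by
          have h6 : Real.exp (-(ε * n)) = Real.exp (-(ε / 2 * n)) * Real.exp (-(ε / 2 * n)) := by
            rw [← Real.exp_add]
            congr 1
            ring
          rw [h6]
          have h7 : Real.exp (-(ε / 2 * n)) ≤ (1 / 4) ^ d / (n : ℝ) ^ d := by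
            rw [le_div_iff₀ (by positivity)]
            exact hn2
          have h8 : (1 / 4 : ℝ) ^ d / (n : ℝ) ^ d = (1 / (n : ℝ) / 2) ^ d / 2 ^ d := by
            rw [← div_pow, ← div_pow]
            congr 1
            field_simp
            norm_num
          rw [h8] at h7
          calc Real.exp (-(ε / 2 * n)) * Real.exp (-(ε / 2 * n))
              ≤ Real.exp (-(ε / 2 * n)) * ((1 / (n : ℝ) / 2) ^ d / 2 ^ d) :=
                mul_le_mul_of_nonneg_left h7 (Real.exp_pos _).le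
            _ = _ := by ring)
      have h6 : (d : ℝ) * (2 + n * (1 / n)) ≤ D := by
        rw [mul_one_div_cancel hnR.ne', hD]
        linarith
      refine le_trans ?_ h6
      refine le_trans ?_ h5
      have h7 : cn (fun j : Fin n => ‖vl f (Fin.cons j k)‖ ≤ Real.exp (-(ε * n)) ∧
          ‖vl g (Fin.cons j k)‖ ≤ t / L) ≤
          cn (fun j : Fin n => ‖(P.map (vh k)).eval (rt n j)‖ ≤ Real.exp (-(ε * n))) := by
        refine cn_mono fun j hj => ?_
        have h8 := hj.1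
        rw [vl_cons] at h8
        exact h8
      exact_mod_cast h7) (by
      intro k
      exact_mod_cast cn_le _) hD0.le hnR.le
  have h5 := hB1 n hn0 t ht0 ht1
  have h6 : C₁ * (t ^ α + 1 / n) ≤ δ / (2 * D) := by
    have : δ / (2 * D) = δ / (4 * D) + δ / (4 * D) := by
      field_simp
      ring
    rw [this, mul_add]
    exact add_le_add htα hn3
  have hnN : (0 : ℝ) < (n : ℝ) ^ N := by positivity
  have h7 : (cnt (fun k : Fin N → Fin n => ‖vl ρ k‖ ≤ t) : ℝ) * D ≤ δ / 2 * n ^ N := by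
    calc (cnt (fun k : Fin N → Fin n => ‖vl ρ k‖ ≤ t) : ℝ) * D
        ≤ (C₁ * (t ^ α + 1 / n) * n ^ N) * D := mul_le_mul_of_nonneg_right h5 hD0.le
      _ ≤ (δ / (2 * D) * n ^ N) * D := by gcongr
      _ = δ / 2 * n ^ N := by field_simp
  calc (cnt (fun k : Fin (N + 1) → Fin n => ‖vl f k‖ ≤ Real.exp (-(ε * n)) ∧ ‖vl g k‖ ≤ t / L) : ℝ) * n
      ≤ (cnt (fun k : Fin N → Fin n => ‖vl ρ k‖ ≤ t) * D +
          cnt (fun k : Fin N → Fin n => ∀ i : Fin (d + 1), ‖vl (P.coeff i) k‖ ≤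
            Real.exp (-(ε / 2 * n))) * n) * n := mul_le_mul_of_nonneg_right hsplit hnR.le
    _ ≤ (δ / 2 * n ^ N + δ / 4 * n ^ N) * n :=
        mul_le_mul_of_nonneg_right (add_le_add h7 hn4) hnR.le
    _ ≤ δ * n ^ (N + 1) := by
        rw [pow_succ]
        have : 0 < δ * ((n : ℝ) ^ N * n) := by positivity
        nlinarith

/-! ### permutation of the variables -/

theorem vl_rename {M : ℕ} (σ : Fin N → Fin M) (f : MvPolynomial (Fin N) ℤ) (k : Fin M → Fin n) :
    vl (MvPolynomial.rename σ f) k = vl f (k ∘ σ) := by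
  unfold vl vh
  rw [MvPolynomial.coe_eval₂Hom, MvPolynomial.coe_eval₂Hom, MvPolynomial.eval₂_rename]
  rfl

theorem cnt_perm (σ : Equiv.Perm (Fin N)) (p : (Fin N → Fin n) → Prop) :
    cnt (fun k => p (k ∘ σ)) = cnt p := by
  classical
  unfold cnt
  refine Finset.card_bij (fun k _ => k ∘ σ) ?_ ?_ ?_
  · intro k hk
    rw [Finset.mem_filter] at hk ⊢
    exact ⟨Finset.mem_univ _, hk.2⟩
  · intro k _ k' _ h
    have h' : k ∘ σ = k' ∘ σ := h
    funext i
    have := congrFun h' (σ.symm i)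
    simpa using this
  · intro k hk
    rw [Finset.mem_filter] at hk
    refine ⟨k ∘ σ.symm, Finset.mem_filter.2 ⟨Finset.mem_univ _, ?_⟩, ?_⟩
    · have : (k ∘ σ.symm) ∘ σ = k := by
        funext i
        simp
      rw [this]
      exact hk.2
    · funext i
      simp

theorem eq_C_of_degreeOf {f : MvPolynomial (Fin N) ℤ} (h : ∀ l, f.degreeOf l = 0) :
    ∃ c : ℤ, f = MvPolynomial.C c := by
  refine ⟨f.coeff 0, ?_⟩
  ext m
  rw [MvPolynomial.coeff_C]
  split_ifs with h0
  · rw [h0]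
  · by_contra hm
    apply h0
    symm
    ext l
    have h1 := MvPolynomial.monomial_le_degreeOf l (MvPolynomial.mem_support_iff.2 hm)
    rw [h l] at h1
    simpa using h1

theorem small_const {f : MvPolynomial (Fin N) ℤ} (hf : f ≠ 0) (h : ∃ c : ℤ, f = MvPolynomial.C c)
    {ε : ℝ} (hε : 0 < ε) (hn : 0 < n) (k : Fin N → Fin n) : ¬ ‖vl f k‖ ≤ Real.exp (-(ε * n)) := by
  obtain ⟨c, rfl⟩ := h
  intro h1
  have hc0 : c ≠ 0 := by
    rintro rfl
    apply hf
    rw [map_zero]
  rw [vl_C, Complex.norm_intCast] at h1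
  have h3 : (1 : ℝ) ≤ |(c : ℝ)| := by
    have := Int.one_le_abs hc0
    exact_mod_cast this
  have h4 : Real.exp (-(ε * n)) < 1 := by
    rw [Real.exp_lt_one_iff]
    have : (0 : ℝ) < n := by exact_mod_cast hn
    have : 0 < ε * n := by positivity
    linarith
  linarith

theorem B3_all (N : ℕ) : B3 N := by
  induction N with
  | zero =>
    intro f g hf _ ε hε δ hδ
    refine ⟨1, one_pos, ?_⟩
    filter_upwards [eventually_gt_atTop 0] with n hn
    exact cnt_zero_le _ (fun k hk => small_const hf.ne_zero ⟨_, MvPolynomial.eq_C_of_isEmpty f⟩ hε hn k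
      hk.1) hδ
  | succ N ih =>
    intro f g hf hfg ε hε δ hδ
    by_cases h : ∀ l, f.degreeOf l = 0
    · refine ⟨1, one_pos, ?_⟩
      filter_upwards [eventually_gt_atTop 0] with n hn
      exact cnt_zero_le _ (fun k hk => small_const hf.ne_zero (eq_C_of_degreeOf h) hε hn k hk.1) hδ
    · push Not at h
      obtain ⟨l, hl⟩ := h
      set σ : Equiv.Perm (Fin (N + 1)) := Equiv.swap 0 l with hσ
      have hf' : Irreducible (MvPolynomial.rename σ f) :=
        (MulEquiv.irreducible_iff (MvPolynomial.renameEquiv ℤ σ)).2 hf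
      have hfg' : ¬ MvPolynomial.rename σ f ∣ MvPolynomial.rename σ g := fun h1 =>
        hfg ((map_dvd_iff (MvPolynomial.renameEquiv ℤ σ)).1 h1)
      have hd' : (MvPolynomial.rename σ f).degreeOf 0 ≠ 0 := by
        have h1 := MvPolynomial.degreeOf_rename_of_injective (p := f) σ.injective l
        rw [hσ, Equiv.swap_apply_right] at h1
        rw [h1]
        exact hl
      obtain ⟨η, hη, h5⟩ := step (B4_of_B3 ih) _ _ hf' hfg' hd' ε hε δ hδ
      refine ⟨η, hη, ?_⟩
      filter_upwards [h5] with n hn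
      simp only [vl_rename] at hn
      rwa [cnt_perm σ (fun k => ‖vl f k‖ ≤ Real.exp (-(ε * n)) ∧ ‖vl g k‖ ≤ η)] at hn

end

end Pool.Agent.T9h56.TG
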