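import Pool.Agent.T9h56.TG.Count

/-!
# Counting with a bound for one of the coefficients
-/

set_option autoImplicit false

namespace Pool.Agent.T9h56.TG

open Polynomial

noncomputable section

variable {N n : ℕ}

theorem cn_roots (hn : 0 < n) (q : ℂ[X]) {r : ℝ} (hr : 0 ≤ r) (p : Fin n → Prop)
    (h : ∀ j, p j → ∃ a ∈ q.roots, ‖rt n j - a‖ < r) :
    (cn p : ℝ) ≤ q.natDegree * (2 + n * r) := by
  classical
  rw [cn_eq]
  have hsub : (Finset.univ.filter p) ⊆
      q.roots.toFinset.biUnion fun a => Finset.univ.filter fun j : Fin n => ‖rt n j - a‖ < r := by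
    intro j hj
    obtain ⟨a, ha, haj⟩ := h j (Finset.mem_filter.1 hj).2
    rw [Finset.mem_biUnion]
    exact ⟨a, Multiset.mem_toFinset.2 ha, Finset.mem_filter.2 ⟨Finset.mem_univ _, haj⟩⟩
  have h1 : ((Finset.univ.filter p).card : ℝ) ≤
      ∑ a ∈ q.roots.toFinset, ((Finset.univ.filter fun j : Fin n => ‖rt n j - a‖ < r).card : ℝ) := by
    exact_mod_cast (Finset.card_le_card hsub).trans Finset.card_biUnion_le
  refine h1.trans ?_
  refine (Finset.sum_le_sum fun a _ => card_near hn a hr).trans ?_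
  rw [Finset.sum_const, nsmul_eq_mul]
  refine mul_le_mul_of_nonneg_right ?_ (by positivity)
  exact_mod_cast (Multiset.toFinset_card_le _).trans (Polynomial.card_roots' q)

theorem eval_eq_prod (q : ℂ[X]) (x : ℂ) :
    q.eval x = q.leadingCoeff * (q.roots.map fun a => x - a).prod := by
  have h2 := Polynomial.C_leadingCoeff_mul_prod_multiset_X_sub_C
    (IsAlgClosed.card_roots_eq_natDegree (p := q))
  conv_lhs => rw [← h2]
  rw [Polynomial.eval_mul, Polynomial.eval_C, Polynomial.eval_multiset_prod, Multiset.map_map]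
  congr 2
  refine Multiset.map_congr rfl fun a _ => ?_
  simp

theorem lower (q : ℂ[X]) {x : ℂ} (hx : ‖x‖ = 1) {r : ℝ} (hr : 0 < r) (hr1 : r ≤ 1)
    (h : ∀ a ∈ q.roots, r ≤ ‖x - a‖) :
    q.mahlerMeasure * (r / 2) ^ q.natDegree ≤ ‖q.eval x‖ := by
  have key : ∀ S : Multiset ℂ, (∀ a ∈ S, r ≤ ‖x - a‖) →
      (S.map fun a => max 1 ‖a‖).prod * (r / 2) ^ Multiset.card S ≤
        ‖(S.map fun a => x - a).prod‖ ∧ 0 ≤ (S.map fun a => max 1 ‖a‖).prod := by
    intro S
    induction S using Multiset.induction_on with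
    | empty => simp
    | cons a S ih =>
      intro hS
      obtain ⟨ih1, ih2⟩ := ih fun b hb => hS b (Multiset.mem_cons_of_mem hb)
      have ha := hS a (Multiset.mem_cons_self _ _)
      rw [Multiset.card_cons, Multiset.map_cons, Multiset.map_cons, Multiset.prod_cons,
        Multiset.prod_cons, norm_mul, pow_succ]
      have h1 : max 1 ‖a‖ * (r / 2) ≤ ‖x - a‖ := by
        rcases le_total ‖a‖ 2 with h2 | h2
        · have : max 1 ‖a‖ ≤ 2 := max_le (by norm_num) h2
          calc max 1 ‖a‖ * (r / 2) ≤ 2 * (r / 2) := mul_le_mul_of_nonneg_right this (by positivity)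
            _ = r := by ring
            _ ≤ _ := ha
        · have h3 : max 1 ‖a‖ = ‖a‖ := max_eq_right (by linarith)
          rw [h3]
          have h4 : ‖a‖ - 1 ≤ ‖x - a‖ := by
            have := norm_sub_norm_le a x
            rw [hx, norm_sub_rev] at this
            exact this
          nlinarith
      refine ⟨?_, mul_nonneg (le_trans zero_le_one (le_max_left _ _)) ih2⟩
      calc max 1 ‖a‖ * (S.map fun a => max 1 ‖a‖).prod * ((r / 2) ^ Multiset.card S * (r / 2))
          = (max 1 ‖a‖ * (r / 2)) * ((S.map fun a => max 1 ‖a‖).prod * (r / 2) ^ Multiset.card S) := by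
            ring
        _ ≤ ‖x - a‖ * ‖(S.map fun a => x - a).prod‖ :=
            mul_le_mul h1 ih1 (by positivity) (norm_nonneg _)
  have h1 := (key q.roots h).1
  rw [IsAlgClosed.card_roots_eq_natDegree] at h1
  rw [eval_eq_prod, norm_mul, Polynomial.mahlerMeasure_eq_leadingCoeff_mul_prod_roots, mul_assoc]
  exact mul_le_mul_of_nonneg_left h1 (norm_nonneg _)

/-- One-variable counting with a bound for a coefficient. -/
theorem card_small2 (hn : 0 < n) (q : ℂ[X]) {d i : ℕ} (hd : q.natDegree ≤ d) {s t r : ℝ}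
    (hr : 0 < r) (hr1 : r ≤ 1) (hs : 0 < s) (hi : s < ‖q.coeff i‖)
    (ht : t ≤ s / 2 ^ d * (r / 2) ^ d) :
    (cn (fun j : Fin n => ‖q.eval (rt n j)‖ ≤ t) : ℝ) ≤ d * (2 + n * r) := by
  have hM : s / 2 ^ d < q.mahlerMeasure := by
    have h1 := q.norm_coeff_le_choose_mul_mahlerMeasure i
    have h2 : ((q.natDegree.choose i : ℕ) : ℝ) ≤ 2 ^ d := by
      have h3 : q.natDegree.choose i ≤ 2 ^ q.natDegree := Nat.choose_le_two_pow _ _
      have h4 : (2 : ℕ) ^ q.natDegree ≤ 2 ^ d := Nat.pow_le_pow_right (by norm_num) hd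
      exact_mod_cast h3.trans h4
    rw [div_lt_iff₀ (by positivity)]
    calc s < ‖q.coeff i‖ := hi
      _ ≤ _ := h1
      _ ≤ 2 ^ d * q.mahlerMeasure := mul_le_mul_of_nonneg_right h2 (Polynomial.mahlerMeasure_nonneg _)
      _ = _ := mul_comm _ _
  refine (cn_roots hn q hr.le _ fun j hj => ?_).trans ?_
  · by_contra hcon
    push Not at hcon
    have h1 := lower q (norm_rt n j) hr hr1 hcon
    have h2 : (r / 2) ^ d ≤ (r / 2) ^ q.natDegree :=
      pow_le_pow_of_le_one (by positivity) (by linarith) hd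
    have h3 : s / 2 ^ d * (r / 2) ^ d < q.mahlerMeasure * (r / 2) ^ q.natDegree := by
      calc s / 2 ^ d * (r / 2) ^ d < q.mahlerMeasure * (r / 2) ^ d :=
            mul_lt_mul_of_pos_right hM (by positivity)
        _ ≤ _ := mul_le_mul_of_nonneg_left h2 (Polynomial.mahlerMeasure_nonneg _)
    linarith
  · refine mul_le_mul_of_nonneg_right ?_ (by positivity)
    exact_mod_cast hd

end

end Pool.Agent.T9h56.TG
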