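import Pool.Agent.T9h56.TG.Grid

/-!
# Counting the roots of unity at which a polynomial is small
-/

set_option autoImplicit false

namespace Pool.Agent.T9h56.TG

open Polynomial

noncomputable section

variable {N n : ℕ}

/-- evaluation at a tuple of roots of unity -/
def vh (k : Fin N → Fin n) : MvPolynomial (Fin N) ℤ →+* ℂ :=
  MvPolynomial.eval₂Hom (Int.castRingHom ℂ) (fun i => rt n (k i))

/-- the value at a tuple of roots of unity -/
def vl (f : MvPolynomial (Fin N) ℤ) (k : Fin N → Fin n) : ℂ := vh k f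

theorem vl_cons (f : MvPolynomial (Fin (N + 1)) ℤ) (j : Fin n) (k : Fin N → Fin n) :
    vl f (Fin.cons j k : Fin (N + 1) → Fin n) =
      ((MvPolynomial.finSuccEquiv ℤ N f).map (vh k)).eval (rt n j) := by
  have h : vh (Fin.cons j k : Fin (N + 1) → Fin n) =
      ((Polynomial.evalRingHom (rt n j)).comp (Polynomial.mapRingHom (vh k))).comp
        (MvPolynomial.finSuccEquiv ℤ N : MvPolynomial (Fin (N + 1)) ℤ →+* _) := by
    apply MvPolynomial.ringHom_ext
    · intro a
      simp [vh]
    · intro i
      refine Fin.cases ?_ (fun i => ?_) i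
      · simp [vh, MvPolynomial.finSuccEquiv_X_zero]
      · simp [vh, MvPolynomial.finSuccEquiv_X_succ]
  exact DFunLike.congr_fun h f

theorem card_cons (p : (Fin (N + 1) → Fin n) → Prop) :
    haveI := Classical.decPred p
    haveI : ∀ k : Fin N → Fin n, DecidablePred fun j : Fin n => p (Fin.cons j k) :=
      fun k => Classical.decPred _
    (Finset.univ.filter p).card =
      ∑ k : Fin N → Fin n, (Finset.univ.filter fun j : Fin n => p (Fin.cons j k)).card := by
  classical
  simp only [Finset.card_filter]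
  rw [← Fintype.sum_equiv (Fin.consEquiv fun _ : Fin (N + 1) => Fin n)
    (fun x => if p (Fin.cons x.1 x.2) then 1 else 0) (fun k => if p k then 1 else 0)
    (fun x => rfl)]
  rw [Fintype.sum_prod_type, Finset.sum_comm]

open Classical in
/-- number of the tuples with a property -/
def cnt (p : (Fin N → Fin n) → Prop) : ℕ := (Finset.univ.filter p).card

theorem cnt_mono {p q : (Fin N → Fin n) → Prop} (h : ∀ k, p k → q k) : cnt p ≤ cnt q := by
  classical
  unfold cnt
  refine Finset.card_le_card fun k hk => ?_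
  rw [Finset.mem_filter] at hk ⊢
  exact ⟨hk.1, h k hk.2⟩

theorem cnt_or {p q r : (Fin N → Fin n) → Prop} (h : ∀ k, p k → q k ∨ r k) :
    cnt p ≤ cnt q + cnt r := by
  classical
  unfold cnt
  refine le_trans (Finset.card_le_card fun k hk => ?_) (Finset.card_union_le _ _)
  rw [Finset.mem_filter] at hk
  rw [Finset.mem_union, Finset.mem_filter, Finset.mem_filter]
  rcases h k hk.2 with h1 | h1
  · exact Or.inl ⟨Finset.mem_univ _, h1⟩
  · exact Or.inr ⟨Finset.mem_univ _, h1⟩

theorem cnt_eq_zero {p : (Fin N → Fin n) → Prop} (h : ∀ k, ¬ p k) : cnt p = 0 := by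
  classical
  unfold cnt
  rw [Finset.card_eq_zero, Finset.filter_eq_empty_iff]
  exact fun k _ => h k

theorem cnt_le (p : (Fin N → Fin n) → Prop) : cnt p ≤ n ^ N := by
  classical
  unfold cnt
  refine (Finset.card_le_univ _).trans ?_
  simp

open Classical in
/-- number of the roots of unity with a property -/
def cn (p : Fin n → Prop) : ℕ := (Finset.univ.filter p).card

theorem cn_eq (p : Fin n → Prop) [DecidablePred p] : cn p = (Finset.univ.filter p).card := by
  unfold cn
  congr!

theorem cn_le (p : Fin n → Prop) : cn p ≤ n := by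
  classical
  rw [cn_eq]
  refine (Finset.card_le_univ _).trans ?_
  simp

theorem cn_mono {p q : Fin n → Prop} (h : ∀ k, p k → q k) : cn p ≤ cn q := by
  classical
  unfold cn
  refine Finset.card_le_card fun k hk => ?_
  rw [Finset.mem_filter] at hk ⊢
  exact ⟨hk.1, h k hk.2⟩

theorem cnt_cons' (p : (Fin (N + 1) → Fin n) → Prop) :
    cnt p = ∑ k : Fin N → Fin n, cn fun j : Fin n => p (Fin.cons j k) := card_cons p

/-- The main counting device: bounds for the first coordinate. -/
theorem cnt_split (p : (Fin (N + 1) → Fin n) → Prop) (q : (Fin N → Fin n) → Prop) {A B : ℝ}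
    (hA : ∀ k, q k → (cn (fun j : Fin n => p (Fin.cons j k)) : ℝ) ≤ A)
    (hB : ∀ k, (cn (fun j : Fin n => p (Fin.cons j k)) : ℝ) ≤ B) (hB0 : 0 ≤ B) (hA0 : 0 ≤ A)
    : (cnt p : ℝ) ≤ cnt q * A + cnt (fun k => ¬ q k) * B := by
  classical
  rw [cnt_cons']
  push_cast
  have h1 : ∑ k : Fin N → Fin n, (cn (fun j : Fin n => p (Fin.cons j k)) : ℝ) ≤
      ∑ k : Fin N → Fin n, ((if q k then A else 0) + (if ¬ q k then B else 0)) := by
    refine Finset.sum_le_sum fun k _ => ?_
    by_cases h : q k
    · simp only [h, if_true, not_true, if_false, add_zero]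
      exact hA k h
    · simp only [h, if_false, not_false_iff, if_true, zero_add]
      exact hB k
  refine h1.trans (le_of_eq ?_)
  rw [Finset.sum_add_distrib, ← Finset.sum_filter, ← Finset.sum_filter, Finset.sum_const,
    Finset.sum_const, nsmul_eq_mul, nsmul_eq_mul]
  unfold cnt
  congr!

theorem map_leading {R : Type*} [CommRing R] (P : R[X]) (φ : R →+* ℂ) (h : φ P.leadingCoeff ≠ 0) :
    (P.map φ).natDegree = P.natDegree ∧ (P.map φ).leadingCoeff = φ P.leadingCoeff :=
  ⟨Polynomial.natDegree_map_of_leadingCoeff_ne_zero φ h,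
    Polynomial.leadingCoeff_map_of_leadingCoeff_ne_zero φ h⟩

/-- **The number of the tuples at which the polynomial is small.** -/
theorem card_le (N : ℕ) : ∀ f : MvPolynomial (Fin N) ℤ, f ≠ 0 → ∃ C α : ℝ, 0 < C ∧ 0 < α ∧
    ∀ n : ℕ, 0 < n → ∀ δ : ℝ, 0 < δ → δ ≤ 1 →
      (cnt (fun k : Fin N → Fin n => ‖vl f k‖ ≤ δ) : ℝ) ≤ C * (δ ^ α + 1 / n) * n ^ N := by
  induction N with
  | zero =>
    intro f hf
    refine ⟨1, 1, one_pos, one_pos, fun n hn δ hδ hδ1 => ?_⟩
    have hnR : (0 : ℝ) < n := by exact_mod_cast hn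
    rcases eq_or_lt_of_le hδ1 with h1 | h1
    · have h2 := cnt_le (fun k : Fin 0 → Fin n => ‖vl f k‖ ≤ δ)
      rw [pow_zero] at h2
      have h3 : (cnt (fun k : Fin 0 → Fin n => ‖vl f k‖ ≤ δ) : ℝ) ≤ 1 := by exact_mod_cast h2
      rw [h1, Real.one_rpow, pow_zero, one_mul, mul_one]
      have : (0 : ℝ) < 1 / n := by positivity
      rw [h1] at h3
      linarith
    · rw [cnt_eq_zero]
      · simp only [Nat.cast_zero]
        positivity
      · intro k hk
        obtain ⟨c, hc⟩ : ∃ c : ℤ, f = MvPolynomial.C c :=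
          ⟨_, MvPolynomial.eq_C_of_isEmpty f⟩
        have hc0 : c ≠ 0 := by
          rintro rfl
          apply hf
          rw [hc, map_zero]
        have h2 : vl f k = c := by
          rw [hc]
          unfold vl vh
          rw [MvPolynomial.eval₂Hom_C]
          rfl
        rw [h2, Complex.norm_intCast] at hk
        have h3 : (1 : ℝ) ≤ |(c : ℝ)| := by
          have := Int.one_le_abs hc0
          exact_mod_cast this
        linarith
  | succ N ih =>
    intro f hf
    set P := MvPolynomial.finSuccEquiv ℤ N f with hP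
    have hP0 : P ≠ 0 := by
      rw [hP, Ne, EmbeddingLike.map_eq_zero_iff]
      exact hf
    have ha : P.leadingCoeff ≠ 0 := Polynomial.leadingCoeff_ne_zero.2 hP0
    obtain ⟨C', α', hC', hα', h'⟩ := ih P.leadingCoeff ha
    set d := P.natDegree with hd
    set β : ℝ := 1 / (2 * ((d : ℝ) + 1)) with hβ
    have hβ0 : 0 < β := by positivity
    set α := min (α' / 2) β with hα
    have hα0 : 0 < α := lt_min (by positivity) hβ0
    refine ⟨2 * d + C' + 1, α, by positivity, hα0, fun n hn δ hδ hδ1 => ?_⟩
    have hnR : (0 : ℝ) < n := by exact_mod_cast hn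
    set s : ℝ := δ ^ (1 / 2 : ℝ) with hs
    have hs0 : 0 < s := Real.rpow_pos_of_pos hδ _
    have hs1 : s ≤ 1 := Real.rpow_le_one hδ.le hδ1 (by norm_num)
    set r : ℝ := δ ^ β with hr
    have hr0 : 0 < r := Real.rpow_pos_of_pos hδ _
    have hrd : δ ≤ s * r ^ d := by
      have h1 : r ^ d = δ ^ (β * d) := by
        rw [hr, ← Real.rpow_natCast, ← Real.rpow_mul hδ.le]
      rw [h1, hs, ← Real.rpow_add hδ]
      conv_lhs => rw [← Real.rpow_one δ]
      refine Real.rpow_le_rpow_of_exponent_ge hδ hδ1 ?_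
      have h2 : β * d ≤ 1 / 2 := by
        rw [hβ, one_div, inv_mul_le_iff₀ (by positivity)]
        linarith
      linarith
    have h1 := cnt_split (N := N) (n := n) (fun k => ‖vl f k‖ ≤ δ)
      (fun k => s < ‖vl P.leadingCoeff k‖) (A := d * (2 + n * r)) (B := n) (by
        intro k hk
        have hk0 : vh k P.leadingCoeff ≠ 0 := by
          intro h0
          have h0' : vl P.leadingCoeff k = 0 := h0
          rw [h0', norm_zero] at hk
          linarith
        obtain ⟨hdeg, hlc⟩ := map_leading P (vh k) hk0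
        have h2 := card_small hn (P.map (vh k)) (s := s) (δ := δ) (r := r) hr0 (by
          rw [hlc]
          exact hk) hs0 (by rw [hdeg]; exact hrd)
        rw [hdeg] at h2
        refine le_trans (le_of_eq ?_) h2
        rw [cn_eq]
        simp only [vl_cons]
        rfl) (by
        intro k
        exact_mod_cast cn_le _) hnR.le (by positivity)
    refine h1.trans ?_
    have h2 : (cnt (fun k : Fin N → Fin n => s < ‖vl P.leadingCoeff k‖) : ℝ) ≤ n ^ N := by
      exact_mod_cast cnt_le _
    have h3 : (cnt (fun k : Fin N → Fin n => ¬ s < ‖vl P.leadingCoeff k‖) : ℝ) ≤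
        C' * (s ^ α' + 1 / n) * n ^ N := by
      simp only [not_lt]
      exact h' n hn s hs0 hs1
    have h4 : s ^ α' ≤ δ ^ α := by
      rw [hs, ← Real.rpow_mul hδ.le]
      refine Real.rpow_le_rpow_of_exponent_ge hδ hδ1 ?_
      have := min_le_left (α' / 2) β
      rw [← hα] at this
      linarith
    have h5 : r ≤ δ ^ α := by
      rw [hr]
      exact Real.rpow_le_rpow_of_exponent_ge hδ hδ1 (min_le_right _ _)
    have h6 : (0 : ℝ) < δ ^ α := Real.rpow_pos_of_pos hδ _
    have hnN : (0 : ℝ) < (n : ℝ) ^ N := by positivity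
    calc (cnt (fun k : Fin N → Fin n => s < ‖vl P.leadingCoeff k‖) : ℝ) * (d * (2 + n * r)) +
          (cnt (fun k : Fin N → Fin n => ¬ s < ‖vl P.leadingCoeff k‖) : ℝ) * n
        ≤ n ^ N * (d * (2 + n * r)) + C' * (s ^ α' + 1 / n) * n ^ N * n := by
          refine add_le_add ?_ ?_
          · exact mul_le_mul_of_nonneg_right h2 (by positivity)
          · exact mul_le_mul_of_nonneg_right h3 hnR.le
      _ = (2 * d * (1 / n) + d * r + C' * (s ^ α' + 1 / n)) * n ^ (N + 1) := by
          rw [pow_succ]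
          field_simp
      _ ≤ ((2 * d + C' + 1) * (δ ^ α + 1 / n)) * n ^ (N + 1) := by
          refine mul_le_mul_of_nonneg_right ?_ (by positivity)
          have h7 : (0 : ℝ) < 1 / n := by positivity
          have h8 : (d : ℝ) * r ≤ d * δ ^ α := mul_le_mul_of_nonneg_left h5 (Nat.cast_nonneg _)
          have h9 : C' * (s ^ α' + 1 / n) ≤ C' * (δ ^ α + 1 / n) :=
            mul_le_mul_of_nonneg_left (by linarith) hC'.le
          have hd0 : (0 : ℝ) ≤ d := Nat.cast_nonneg _
          nlinarith [mul_nonneg hd0 h6.le, mul_nonneg hd0 h7.le]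
      _ = _ := by ring

end

end Pool.Agent.T9h56.TG
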