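import Pool.Agent.T9h20.TG.Spec2
import Pool.Agent.T9h75.TF.Alt

/-!
# Group TG, piece KG: counting the zeros of the changed expression, no window
-/

set_option autoImplicit false

open MeasureTheory Set Filter Topology

namespace Pool.Agent.T9h56.TG

open Pool.Agent.T9h20.TG
open Pool.Agent.T9h20.TA (mon mx)
open Pool.Agent.T9h20.TE (DD)
open Pool.Agent.T9h20.TF (Fr Fc MM SDec SZero)
open Pool.Agent.T9h75.TF (fc_ofReal fc_diff)

/-- One point for every gap. -/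
theorem reps (B : Finset ℝ) (G p r : ℝ) (hG : 0 < G) (hp : p ∈ B) :
    ∃ XR : Finset ℝ, XR.card ≤ B.card ∧
      ∀ z ∈ Icc p r, (∀ b ∈ B, G ≤ |z - b|) → ∃ y ∈ XR, y ∈ Icc p r ∧ (∀ b ∈ B, G ≤ |y - b|) ∧
        ∀ b ∈ B, ¬ (y < b ∧ b < z) ∧ ¬ (z < b ∧ b < y) := by
  classical
  have hrep : ∀ b0 : ℝ, ∃ y : ℝ,
      (∃ y1 : ℝ, y1 ∈ Icc p r ∧ (∀ b ∈ B, G ≤ |y1 - b|) ∧ b0 < y1 ∧
        ∀ b ∈ B, b < y1 → b ≤ b0) →
      (y ∈ Icc p r ∧ (∀ b ∈ B, G ≤ |y - b|) ∧ b0 < y ∧ ∀ b ∈ B, b < y → b ≤ b0) := by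
    intro b0
    by_cases h : ∃ y1 : ℝ, y1 ∈ Icc p r ∧ (∀ b ∈ B, G ≤ |y1 - b|) ∧ b0 < y1 ∧
        ∀ b ∈ B, b < y1 → b ≤ b0
    · obtain ⟨y1, h1⟩ := h
      exact ⟨y1, fun _ => h1⟩
    · exact ⟨0, fun h' => absurd h' h⟩
  choose rep hr using hrep
  refine ⟨B.image rep, Finset.card_image_le, ?_⟩
  intro z hz hfar
  have hpz : p < z := by
    have h1 := hfar p hp
    rcases lt_or_eq_of_le hz.1 with h | h
    · exact h
    · rw [h, sub_self, abs_zero] at h1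
      linarith
  have hne : (B.filter (fun b => b < z)).Nonempty := ⟨p, Finset.mem_filter.2 ⟨hp, hpz⟩⟩
  obtain ⟨b0, hb0, hmax⟩ := (B.filter (fun b => b < z)).exists_max_image (fun b => b) hne
  rw [Finset.mem_filter] at hb0
  have hmax' : ∀ b ∈ B, b < z → b ≤ b0 := fun b hb hbz => hmax b (Finset.mem_filter.2 ⟨hb, hbz⟩)
  obtain ⟨h1, h2, h3, h4⟩ := hr b0 ⟨z, hz, hfar, hb0.2, hmax'⟩
  refine ⟨rep b0, Finset.mem_image_of_mem _ hb0.1, h1, h2, fun b hb => ⟨?_, ?_⟩⟩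
  · rintro ⟨h5, h6⟩
    have := hmax' b hb h6
    linarith
  · rintro ⟨h5, h6⟩
    have := h4 b hb h6
    have := hb0.2
    linarith

theorem sCountG (hCov : SCovG) (hG : SLocG) (hB : SBdU) (hGap : SGap) (hS : SDec)
    (hZ : SZero) : SCountG := by
  classical
  intro k q t m _ b d al c a D M G hD hM hG0 hal hd ha hc hb
  obtain ⟨X0, nx, s0, hX0, hx, hcov, hdom⟩ := hS q t c (fun j s => (a j s : ℝ)) hc M hM
  have hm : (0 : ℝ) < (m + 1) * D := by positivity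
  obtain ⟨η, hη⟩ : ∃ η : ℝ, η = 1 / ((m + 1) * D) := ⟨_, rfl⟩
  have hη0 : 0 < η := by rw [hη]; positivity
  obtain ⟨C, hC⟩ : ∃ C : ℝ, C = 2 * ((k : ℝ) ^ 2 + 2) *
        (40 * ((k : ℝ) ^ 2 + 2) * Real.log (1 + 4 * G * ((m + 1) * D)) + 2) := ⟨_, rfl⟩
  have hlog : 0 ≤ Real.log (1 + 4 * G * ((m + 1) * D)) := by
    apply Real.log_nonneg
    have : 0 ≤ 4 * G * ((m + 1) * D) := by positivity
    linarith
  have hC0 : 0 ≤ C := by rw [hC]; positivity
  rw [← hC]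
  have hbl : ∀ x0 ∈ X0, ∃ (B XC XR : Finset ℝ),
      (((XC ∪ XR).card : ℕ) : ℝ) ≤ C ∧
      (∀ x ∈ XC, x0 ≤ x ∧ x ≤ nx x0) ∧
      (∀ y ∈ Icc x0 (nx x0), (∃ b' ∈ B, |y - b'| < G) →
        ∃ x ∈ XC, ∀ b' ∈ B, |y - x| ≤ (η + |x - b'|) / 8) ∧
      (∀ z ∈ Icc x0 (nx x0), (∀ b' ∈ B, G ≤ |z - b'|) → ∃ y ∈ XR,
        ∀ c' : Fin q → Fin t → ℝ, (∀ j s, |c' j s| ≤ 2 * |c j s|) →
        Fr b (fun i => (d i : ℝ)) al c' (fun j s => (a j s : ℝ)) z = 0 →
        ∃ i : Fin k, |Fr b (fun i => (d i : ℝ)) al c' (fun j s => (a j s : ℝ)) y| ≤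
          2 * (k * (m + 1) * (2 * t : ℝ) ^ m) * Real.exp (-G) *
            MM b (fun i => (d i : ℝ)) al c (fun j s => (a j s : ℝ)) i y) ∧
      ∀ y ∈ Icc x0 (nx x0), ∀ R : ℝ, 0 < R →
        (∀ x' ∈ B, R ≤ (1 / ((m + 1) * D) + |y - x'|) / 2) →
        ∃ (i0 : Fin k) (E : ℝ), ∀ (f : ℂ → ℂ) (T : ℝ), 0 ≤ T →
          (∀ z, ‖f z‖ ≤ T * ∑ i, MM b (fun i => (d i : ℝ)) al c
            (fun j s => (a j s : ℝ)) i z.re) → ∀ z : ℂ, ‖z - y‖ ≤ R →
            ‖f z * Complex.exp (-(E * (z - y)))‖ ≤ 3 * (k * T) *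
              MM b (fun i => (d i : ℝ)) al c (fun j s => (a j s : ℝ)) i0 y := by
    intro x0 hx0
    obtain ⟨B1, hB1, hB2, hB3⟩ := hG k q t m b (fun i => (d i : ℝ)) al c
      (fun j s => (a j s : ℝ)) D hD hal (fun i => ⟨Nat.cast_nonneg _, hd i⟩)
      (fun j s => ⟨Nat.cast_nonneg _, ha j s⟩) (s0 x0) x0 (nx x0)
      (hx x0 hx0).1 hc hb (hdom x0 hx0)
    obtain ⟨B2, hB4, hB5, hB6, hB7, hB8⟩ := hGap k q t m b d al c a hal (s0 x0) x0 (nx x0)
      (hx x0 hx0).1 hc hb (hdom x0 hx0)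
    obtain ⟨B, hBdef⟩ : ∃ B : Finset ℝ, B = B1 ∪ B2 := ⟨_, rfl⟩
    have hs1 : ∀ x ∈ B1, x ∈ B := fun x hx => by
      rw [hBdef]
      exact Finset.mem_union_left _ hx
    have hs2 : ∀ x ∈ B2, x ∈ B := fun x hx => by
      rw [hBdef]
      exact Finset.mem_union_right _ hx
    have hBI : ∀ x ∈ B, x0 ≤ x ∧ x ≤ nx x0 := by
      intro x hxB
      rw [hBdef, Finset.mem_union] at hxB
      rcases hxB with h | h
      · exact hB2 x h
      · exact hB7 x h
    have hBc : (B.card : ℝ) ≤ 2 * ((k : ℝ) ^ 2 + 2) := by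
      have h1 : B.card ≤ 2 * (k ^ 2 + 2) := by
        rw [hBdef]
        have := Finset.card_union_le B1 B2
        omega
      exact_mod_cast h1
    obtain ⟨XC, hX1, hX2, hX3⟩ := hCov B η G x0 (nx x0) hη0 hG0 (hx x0 hx0).1.le hBI
    obtain ⟨XR, hR1, hR2⟩ := reps B G x0 (nx x0) hG0 (hs2 _ hB5)
    refine ⟨B, XC, XR, ?_, hX1, hX3, ?_, ?_⟩
    · have e1 : 4 * G / η = 4 * G * ((m + 1) * D) := by
        rw [hη, div_div_eq_mul_div, div_one]
      rw [e1] at hX2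
      have h1 : (((XC ∪ XR).card : ℕ) : ℝ) ≤ (XC.card : ℝ) + XR.card := by
        exact_mod_cast Finset.card_union_le XC XR
      have h2 : (XR.card : ℝ) ≤ B.card := by exact_mod_cast hR1
      have h3 : (0 : ℝ) ≤ B.card := Nat.cast_nonneg _
      calc (((XC ∪ XR).card : ℕ) : ℝ) ≤ B.card * (20 * B.card *
              Real.log (1 + 4 * G * ((m + 1) * D)) + 1) + B.card := by linarith
        _ = B.card * (20 * B.card * Real.log (1 + 4 * G * ((m + 1) * D)) + 2) := by ring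
        _ ≤ (2 * ((k : ℝ) ^ 2 + 2)) * (20 * (2 * ((k : ℝ) ^ 2 + 2)) *
              Real.log (1 + 4 * G * ((m + 1) * D)) + 2) := by gcongr
        _ = C := by
            rw [hC]
            ring
    · intro z hz hfar
      obtain ⟨y, hy1, hy2, hy3, hy4⟩ := hR2 z hz hfar
      refine ⟨y, hy1, fun c' hc' h0 => ?_⟩
      exact hB8 c' hc' G y z hG0 hy2 hz (fun x' hx' => ⟨hy3 x' (hs2 x' hx'), hfar x' (hs2 x' hx')⟩)
        (fun x' hx' => hy4 x' (hs2 x' hx')) h0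
    · intro y hy R hR hRB
      exact hB3 y hy R hR (fun x' hx' => hRB x' (hs1 x' hx'))
  choose! B XC XR h1 h2 h3 h4 h5 using hbl
  refine ⟨insert 0 (X0.biUnion (fun x0 => XC x0 ∪ XR x0)), Finset.insert_nonempty _ _, ?_, ?_⟩
  · have h6 : (((insert 0 (X0.biUnion (fun x0 => XC x0 ∪ XR x0)) : Finset ℝ).card : ℕ) : ℝ) ≤
        ((X0.biUnion (fun x0 => XC x0 ∪ XR x0)).card : ℝ) + 1 := by
      exact_mod_cast Finset.card_insert_le _ _
    refine h6.trans ?_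
    have h7 : ((X0.biUnion (fun x0 => XC x0 ∪ XR x0)).card : ℝ) ≤ (2 * q * t + 1) * C := by
      calc ((X0.biUnion (fun x0 => XC x0 ∪ XR x0)).card : ℝ) ≤
            ∑ x0 ∈ X0, ((XC x0 ∪ XR x0).card : ℝ) := by
            exact_mod_cast Finset.card_biUnion_le
        _ ≤ ∑ _x0 ∈ X0, C := Finset.sum_le_sum h1
        _ = (X0.card : ℝ) * C := by rw [Finset.sum_const, nsmul_eq_mul]
        _ ≤ (2 * q * t + 1) * C := by
            apply mul_le_mul_of_nonneg_right _ hC0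
            exact_mod_cast hX0
    linarith
  · intro c' hc' n hlow hlow2 Z hZm
    obtain ⟨X, hX⟩ : ∃ X : Finset ℝ, X = insert 0 (X0.biUnion (fun x0 => XC x0 ∪ XR x0)) :=
      ⟨_, rfl⟩
    rw [← hX] at hlow hlow2 ⊢
    have hmemC : ∀ x0 ∈ X0, ∀ x ∈ XC x0, x ∈ X := by
      intro x0 hx0 x hxC
      rw [hX]
      exact Finset.mem_insert_of_mem (Finset.mem_biUnion.2 ⟨x0, hx0, Finset.mem_union_left _ hxC⟩)
    have hmemR : ∀ x0 ∈ X0, ∀ x ∈ XR x0, x ∈ X := by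
      intro x0 hx0 x hxR
      rw [hX]
      exact Finset.mem_insert_of_mem (Finset.mem_biUnion.2 ⟨x0, hx0, Finset.mem_union_right _ hxR⟩)
    obtain ⟨ZZ, hZZ⟩ : ∃ ZZ : ℝ → Finset ℝ, ∀ x, ZZ x = Z.filter (fun z => ∃ x0 ∈ X0,
        x ∈ XC x0 ∧ ∀ b' ∈ B x0, |z - x| ≤ (η + |x - b'|) / 8) := ⟨fun x => _, fun x => rfl⟩
    have hsub : Z ⊆ X.biUnion ZZ := by
      intro z hz
      obtain ⟨x0, hx0, hzx⟩ := hcov z (hZm z hz).1
      have hzI : z ∈ Icc x0 (nx x0) := ⟨hzx.1, hzx.2.le⟩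
      by_cases hnear : ∃ b' ∈ B x0, |z - b'| < G
      · obtain ⟨x, hxm, hxb⟩ := h3 x0 hx0 z hzI hnear
        refine Finset.mem_biUnion.2 ⟨x, hmemC x0 hx0 x hxm, ?_⟩
        rw [hZZ, Finset.mem_filter]
        exact ⟨hz, x0, hx0, hxm, hxb⟩
      · exfalso
        push Not at hnear
        obtain ⟨y, hyR, hy⟩ := h4 x0 hx0 z hzI hnear
        obtain ⟨i, hi⟩ := hy c' hc' (hZm z hz).2
        have := hlow2 y (hmemR x0 hx0 y hyR) i
        linarith
    have hcard : ∀ x ∈ X, (ZZ x).card ≤ n := by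
      intro x hxX
      rcases (ZZ x).eq_empty_or_nonempty with h0 | h0
      · rw [h0]
        simp
      obtain ⟨zs, hzs, hmax⟩ := (ZZ x).exists_max_image (fun z => |z - x|) h0
      have hzs' := hzs
      rw [hZZ, Finset.mem_filter] at hzs'
      obtain ⟨hzsZ, x0, hx0, hxX1, hxb⟩ := hzs'
      obtain ⟨R, hR⟩ : ∃ R : ℝ, R = max (4 * |zs - x|) (η / 2) := ⟨_, rfl⟩
      have hR0 : 0 < R := by
        rw [hR]
        exact lt_max_of_lt_right (by positivity)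
      have hRle : ∀ x' ∈ B x0, R ≤ (1 / ((m + 1) * D) + |x - x'|) / 2 := by
        intro x' hx'
        rw [hR, ← hη]
        apply max_le
        · have := hxb x' hx'
          linarith
        · have := abs_nonneg (x - x')
          linarith
      obtain ⟨i0, E, hE⟩ := h5 x0 hx0 x (h2 x0 hx0 x hxX1) R hR0 hRle
      have hbd := hE (Fc b (fun i => (d i : ℝ)) al c' (fun j s => (a j s : ℝ)))
        ((2 * t : ℝ) ^ m) (by positivity)
        (hB k q t m b (fun i => (d i : ℝ)) al c c' (fun j s => (a j s : ℝ)) hal hc')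
      have hexp : Differentiable ℂ (fun z : ℂ => Complex.exp (-((E : ℂ) * (z - (x : ℂ))))) := by
        fun_prop
      have hmain := hZ (fun z => Fc b (fun i => (d i : ℝ)) al c' (fun j s => (a j s : ℝ)) z *
        Complex.exp (-((E : ℂ) * (z - (x : ℂ)))))
        (x : ℂ) R (3 * (k * (2 * t : ℝ) ^ m) *
          MM b (fun i => (d i : ℝ)) al c (fun j s => (a j s : ℝ)) i0 x)
        ((ZZ x).map ⟨fun x : ℝ => (x : ℂ), Complex.ofReal_injective⟩) hR0
        ((fc_diff b (fun i => (d i : ℝ)) al c' (fun j s => (a j s : ℝ))).mul hexp)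
        (fun z hz => hbd z hz) ?_
      · rw [Finset.card_map] at hmain
        simp only [sub_self, mul_zero, neg_zero, Complex.exp_zero, mul_one, fc_ofReal,
          Complex.norm_real, Real.norm_eq_abs] at hmain
        by_contra hcon
        push Not at hcon
        have hl := hlow x hxX i0
        obtain ⟨W, hW⟩ : ∃ W : ℝ, W = 3 * (k * (2 * t : ℝ) ^ m) *
            MM b (fun i => (d i : ℝ)) al c (fun j s => (a j s : ℝ)) i0 x := ⟨_, rfl⟩
        obtain ⟨F0, hF0⟩ : ∃ F0 : ℝ,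
            F0 = |Fr b (fun i => (d i : ℝ)) al c' (fun j s => (a j s : ℝ)) x| := ⟨_, rfl⟩
        have hM0 : 0 ≤ W := by
          rw [hW]
          exact (norm_nonneg _).trans (hbd (x : ℂ) (by simpa using hR0.le))
        rw [← hW, ← hF0] at hl hmain
        have h6 : (1 / 3 : ℝ) ^ (ZZ x).card ≤ (1 / 3) ^ (n + 1) :=
          pow_le_pow_of_le_one (by norm_num) (by norm_num) hcon
        have h7 := hmain.trans (mul_le_mul_of_nonneg_left h6 hM0)
        have h8 : F0 * 3 ^ (n + 1) ≤ W := by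
          have h9 : (0 : ℝ) < 3 ^ (n + 1) := by positivity
          calc F0 * 3 ^ (n + 1) ≤ W * (1 / 3) ^ (n + 1) * 3 ^ (n + 1) :=
                mul_le_mul_of_nonneg_right h7 h9.le
            _ = W * ((1 / 3) ^ (n + 1) * 3 ^ (n + 1)) := by ring
            _ = W := by
                rw [← mul_pow]
                norm_num
        linarith
      · intro z hz
        obtain ⟨x1, hx1, rfl⟩ := Finset.mem_map.1 hz
        have hle := hmax x1 hx1
        have hx1' := hx1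
        rw [hZZ, Finset.mem_filter] at hx1'
        have hzero := (hZm x1 hx1'.1).2
        refine ⟨?_, ?_⟩
        · show ‖(x1 : ℂ) - (x : ℂ)‖ ≤ R / 4
          rw [← Complex.ofReal_sub, Complex.norm_real, Real.norm_eq_abs]
          have h9 : 4 * |zs - x| ≤ R := by
            rw [hR]
            exact le_max_left _ _
          have h10 : |x1 - x| ≤ |zs - x| := hle
          linarith
        · show Fc b (fun i => (d i : ℝ)) al c' (fun j s => (a j s : ℝ)) (x1 : ℂ) *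
            Complex.exp (-((E : ℂ) * ((x1 : ℂ) - (x : ℂ)))) = 0
          rw [fc_ofReal, hzero]
          simp
    calc Z.card ≤ (X.biUnion ZZ).card := Finset.card_le_card hsub
      _ ≤ ∑ x ∈ X, (ZZ x).card := Finset.card_biUnion_le
      _ ≤ ∑ _x ∈ X, n := Finset.sum_le_sum hcard
      _ = X.card * n := by rw [Finset.sum_const, smul_eq_mul]

end Pool.Agent.T9h56.TG
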