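import Mathlib

/-!
# Roots of unity near a point, and values of polynomials at tuples of roots of unity
-/

set_option autoImplicit false

namespace Pool.Agent.T9h56.TG

open Polynomial

noncomputable section

/-- the `j`-th of the `n`-th roots of unity -/
def rt (n : ℕ) (j : ℕ) : ℂ := Complex.exp (2 * (Real.pi : ℂ) * Complex.I * ((j : ℂ) / (n : ℂ)))

theorem rt_eq (n j : ℕ) : rt n j = Complex.exp (((2 * Real.pi * ((j : ℝ) / n) : ℝ) : ℂ) * Complex.I) := by
  unfold rt
  congr 1
  push_cast
  ring

theorem norm_rt (n j : ℕ) : ‖rt n j‖ = 1 := by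
  rw [rt_eq]
  exact Complex.norm_exp_ofReal_mul_I _

theorem rt_pow {n : ℕ} (hn : n ≠ 0) (j : ℕ) : rt n j ^ n = 1 := by
  unfold rt
  rw [← Complex.exp_nat_mul]
  have h : (n : ℂ) * (2 * (Real.pi : ℂ) * Complex.I * ((j : ℂ) / (n : ℂ))) =
      (j : ℂ) * (2 * (Real.pi : ℂ) * Complex.I) := by
    have : (n : ℂ) ≠ 0 := Nat.cast_ne_zero.2 hn
    field_simp
  rw [h, Complex.exp_nat_mul, Complex.exp_two_pi_mul_I, one_pow]

/-- the chord between two points of the circle -/
theorem norm_exp_sub (x y : ℝ) : ‖Complex.exp ((x : ℂ) * Complex.I) - Complex.exp ((y : ℂ) * Complex.I)‖ =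
    2 * |Real.sin ((x - y) / 2)| := by
  have h1 : Complex.exp ((x : ℂ) * Complex.I) - Complex.exp ((y : ℂ) * Complex.I) =
      Complex.exp ((((x + y) / 2 : ℝ) : ℂ) * Complex.I) *
        (2 * Complex.I * ((Real.sin ((x - y) / 2) : ℝ) : ℂ)) := by
    have h2 : (2 * Complex.I * ((Real.sin ((x - y) / 2) : ℝ) : ℂ)) =
        Complex.exp ((((x - y) / 2 : ℝ) : ℂ) * Complex.I) -
          Complex.exp (((-((x - y) / 2) : ℝ) : ℂ) * Complex.I) := by
      rw [Complex.exp_mul_I, Complex.exp_mul_I, ← Complex.ofReal_cos, ← Complex.ofReal_sin,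
        ← Complex.ofReal_cos, ← Complex.ofReal_sin, Real.cos_neg, Real.sin_neg]
      push_cast
      ring
    rw [h2, mul_sub, ← Complex.exp_add, ← Complex.exp_add]
    congr 2
    · push_cast
      ring
    · push_cast
      ring
  rw [h1, norm_mul, Complex.norm_exp_ofReal_mul_I, one_mul, norm_mul, norm_mul, Complex.norm_I,
    Complex.norm_real, Real.norm_eq_abs]
  simp

theorem chord {n : ℕ} (hn : 0 < n) {i j : ℕ} (hij : i ≤ j) (hj : j < n) :
    4 * min (((j : ℝ) - i) / n) (1 - ((j : ℝ) - i) / n) ≤ ‖rt n j - rt n i‖ := by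
  rw [rt_eq, rt_eq, norm_exp_sub]
  have hnR : (0 : ℝ) < n := by exact_mod_cast hn
  set x : ℝ := ((j : ℝ) - i) / n with hx
  have h0 : 0 ≤ x := by
    have : (i : ℝ) ≤ j := by exact_mod_cast hij
    rw [hx]
    apply div_nonneg _ hnR.le
    linarith
  have h1 : x ≤ 1 := by
    rw [hx, div_le_one hnR]
    have : (j : ℝ) < n := by exact_mod_cast hj
    have : (0 : ℝ) ≤ i := Nat.cast_nonneg i
    linarith
  have h2 : (2 * Real.pi * ((j : ℝ) / n) - 2 * Real.pi * ((i : ℝ) / n)) / 2 = Real.pi * x := by
    rw [hx]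
    field_simp
  rw [h2]
  have hpi := Real.pi_pos
  have hs : 0 ≤ Real.sin (Real.pi * x) := Real.sin_nonneg_of_nonneg_of_le_pi (by positivity)
    (by nlinarith)
  rw [abs_of_nonneg hs]
  rcases le_total x (1 / 2) with h | h
  · have h3 := Real.mul_le_sin (x := Real.pi * x) (by positivity) (by nlinarith)
    have h4 : 2 / Real.pi * (Real.pi * x) = 2 * x := by
      field_simp
    rw [h4] at h3
    have := min_le_left x (1 - x)
    linarith
  · have h3 := Real.mul_le_sin (x := Real.pi * (1 - x)) (by
      have : 0 ≤ 1 - x := by linarith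
      positivity) (by nlinarith)
    have h4 : 2 / Real.pi * (Real.pi * (1 - x)) = 2 * (1 - x) := by
      field_simp
    have h5 : Real.sin (Real.pi * (1 - x)) = Real.sin (Real.pi * x) := by
      rw [mul_sub, mul_one, Real.sin_pi_sub]
    rw [h4, h5] at h3
    have := min_le_right x (1 - x)
    linarith

/-- Few roots of unity are close to a point. -/
theorem card_near {n : ℕ} (hn : 0 < n) (a : ℂ) {r : ℝ} (hr : 0 ≤ r) :
    ((Finset.univ.filter fun j : Fin n => ‖rt n j - a‖ < r).card : ℝ) ≤ 2 + n * r := by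
  classical
  set J := Finset.univ.filter fun j : Fin n => ‖rt n j - a‖ < r with hJ
  have hnR : (0 : ℝ) < n := by exact_mod_cast hn
  rcases J.eq_empty_or_nonempty with h | h
  · rw [h]
    simp only [Finset.card_empty, Nat.cast_zero]
    positivity
  obtain ⟨i, hi, hmin⟩ := J.exists_min_image (fun j => (j : ℕ)) h
  have hi' : ‖rt n i - a‖ < r := (Finset.mem_filter.1 hi).2
  set x : ℝ := n * r / 2 with hx
  have hx0 : 0 ≤ x := by positivity
  -- the two intervals
  have hsub : J ⊆ (Finset.univ.filter fun j : Fin n => (i : ℕ) ≤ j ∧ ((j : ℝ) - i) < x) ∪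
      (Finset.univ.filter fun j : Fin n => (n : ℝ) - x < (j : ℝ) - i) := by
    intro j hj
    have hj' : ‖rt n j - a‖ < r := (Finset.mem_filter.1 hj).2
    have hij : (i : ℕ) ≤ j := hmin j hj
    have h1 := chord hn hij j.2
    have h2 : ‖rt n j - rt n i‖ < 2 * r := by
      have h3 : rt n j - rt n i = (rt n j - a) - (rt n i - a) := by ring
      rw [h3]
      refine (norm_sub_le _ _).trans_lt ?_
      linarith
    have h3 : min (((j : ℝ) - (i : ℕ)) / n) (1 - ((j : ℝ) - (i : ℕ)) / n) < r / 2 := by linarith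
    rw [Finset.mem_union, Finset.mem_filter, Finset.mem_filter]
    rcases min_lt_iff.1 h3 with h4 | h4
    · left
      refine ⟨Finset.mem_univ _, hij, ?_⟩
      rw [div_lt_iff₀ hnR] at h4
      rw [hx]
      linarith
    · right
      refine ⟨Finset.mem_univ _, ?_⟩
      have h5 : 1 - r / 2 < ((j : ℝ) - (i : ℕ)) / n := by linarith
      rw [lt_div_iff₀ hnR] at h5
      rw [hx]
      linarith
  have hA : ((Finset.univ.filter fun j : Fin n => (i : ℕ) ≤ j ∧ ((j : ℝ) - i) < x).card : ℝ) ≤
      1 + x := by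
    have h1 : (Finset.univ.filter fun j : Fin n => (i : ℕ) ≤ j ∧ ((j : ℝ) - i) < x).card ≤
        (Finset.range (⌊x⌋₊ + 1)).card := by
      refine Finset.card_le_card_of_injOn (fun j => (j : ℕ) - i) ?_ ?_
      · intro j hj
        rw [Finset.mem_coe, Finset.mem_filter] at hj
        rw [Finset.mem_coe, Finset.mem_range]
        obtain ⟨_, h1, h2⟩ := hj
        refine Nat.lt_succ_of_le (Nat.le_floor ?_)
        rw [Nat.cast_sub h1]
        exact h2.le
      · intro j hj j' hj' he
        rw [Finset.mem_coe, Finset.mem_filter] at hj hj'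
        simp only at he
        apply Fin.ext
        have := hj.2.1
        have := hj'.2.1
        omega
    rw [Finset.card_range] at h1
    have h2 : ((⌊x⌋₊ + 1 : ℕ) : ℝ) ≤ 1 + x := by
      push_cast
      have := Nat.floor_le hx0
      linarith
    exact (Nat.cast_le.2 h1).trans h2
  have hB : ((Finset.univ.filter fun j : Fin n => (n : ℝ) - x < (j : ℝ) - i).card : ℝ) ≤ 1 + x := by
    have h1 : (Finset.univ.filter fun j : Fin n => (n : ℝ) - x < (j : ℝ) - i).card ≤
        (Finset.range (⌊x⌋₊ + 1)).card := by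
      refine Finset.card_le_card_of_injOn (fun j => n - (j : ℕ)) ?_ ?_
      · intro j hj
        rw [Finset.mem_coe, Finset.mem_filter] at hj
        rw [Finset.mem_coe, Finset.mem_range]
        refine Nat.lt_succ_of_le (Nat.le_floor ?_)
        rw [Nat.cast_sub j.2.le]
        have h2 := hj.2
        have : (0 : ℝ) ≤ (i : ℕ) := Nat.cast_nonneg _
        linarith
      · intro j hj j' hj' he
        simp only at he
        apply Fin.ext
        have := j.2
        have := j'.2
        omega
    rw [Finset.card_range] at h1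
    have h2 : ((⌊x⌋₊ + 1 : ℕ) : ℝ) ≤ 1 + x := by
      push_cast
      have := Nat.floor_le hx0
      linarith
    exact (Nat.cast_le.2 h1).trans h2
  have h1 : (J.card : ℝ) ≤ (1 + x) + (1 + x) := by
    refine le_trans ?_ (add_le_add hA hB)
    exact_mod_cast (Finset.card_le_card hsub).trans (Finset.card_union_le _ _)
  rw [hx] at h1
  linarith

/-- One-variable counting with a bound for the leading coefficient. -/
theorem card_small {n : ℕ} (hn : 0 < n) (q : ℂ[X]) {s δ r : ℝ} (hr : 0 < r)
    (hlc : s < ‖q.leadingCoeff‖) (hs : 0 < s) (h : δ ≤ s * r ^ q.natDegree) :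
    ((Finset.univ.filter fun j : Fin n => ‖q.eval (rt n j)‖ ≤ δ).card : ℝ) ≤
      q.natDegree * (2 + n * r) := by
  classical
  have hq0 : q.leadingCoeff ≠ 0 := by
    intro h0
    rw [h0, norm_zero] at hlc
    linarith
  have hsub : (Finset.univ.filter fun j : Fin n => ‖q.eval (rt n j)‖ ≤ δ) ⊆
      q.roots.toFinset.biUnion fun a => Finset.univ.filter fun j : Fin n => ‖rt n j - a‖ < r := by
    intro j hj
    have hj' := (Finset.mem_filter.1 hj).2
    by_contra hcon
    have h1 : ∀ a ∈ q.roots, r ≤ ‖rt n j - a‖ := by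
      intro a ha
      by_contra hlt
      push Not at hlt
      apply hcon
      rw [Finset.mem_biUnion]
      exact ⟨a, Multiset.mem_toFinset.2 ha, Finset.mem_filter.2 ⟨Finset.mem_univ _, hlt⟩⟩
    have h2 := Polynomial.C_leadingCoeff_mul_prod_multiset_X_sub_C
      (IsAlgClosed.card_roots_eq_natDegree (p := q))
    have h3 : q.eval (rt n j) = q.leadingCoeff * (q.roots.map fun a => rt n j - a).prod := by
      conv_lhs => rw [← h2]
      rw [Polynomial.eval_mul, Polynomial.eval_C, Polynomial.eval_multiset_prod, Multiset.map_map]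
      congr 2
      refine Multiset.map_congr rfl fun a _ => ?_
      simp
    have h4 : ∀ S : Multiset ℂ, (∀ a ∈ S, r ≤ ‖rt n j - a‖) →
        r ^ Multiset.card S ≤ ‖(S.map fun a => rt n j - a).prod‖ := by
      intro S
      induction S using Multiset.induction_on with
      | empty => simp
      | cons a S ih =>
        intro hS
        rw [Multiset.card_cons, Multiset.map_cons, Multiset.prod_cons, norm_mul, pow_succ, mul_comm]
        exact mul_le_mul (hS a (Multiset.mem_cons_self _ _))
          (ih fun b hb => hS b (Multiset.mem_cons_of_mem hb)) (by positivity) (norm_nonneg _)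
    have h5 := h4 q.roots h1
    rw [IsAlgClosed.card_roots_eq_natDegree] at h5
    rw [h3, norm_mul] at hj'
    have h6 : s * r ^ q.natDegree < ‖q.leadingCoeff‖ * ‖(q.roots.map fun a => rt n j - a).prod‖ := by
      calc s * r ^ q.natDegree < ‖q.leadingCoeff‖ * r ^ q.natDegree :=
            mul_lt_mul_of_pos_right hlc (by positivity)
        _ ≤ _ := mul_le_mul_of_nonneg_left h5 (norm_nonneg _)
    linarith
  have h1 : ((Finset.univ.filter fun j : Fin n => ‖q.eval (rt n j)‖ ≤ δ).card : ℝ) ≤
      ∑ a ∈ q.roots.toFinset, ((Finset.univ.filter fun j : Fin n => ‖rt n j - a‖ < r).card : ℝ) := by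
    exact_mod_cast (Finset.card_le_card hsub).trans Finset.card_biUnion_le
  refine h1.trans ?_
  refine (Finset.sum_le_sum fun a _ => card_near hn a hr.le).trans ?_
  rw [Finset.sum_const, nsmul_eq_mul]
  refine mul_le_mul_of_nonneg_right ?_ (by positivity)
  exact_mod_cast (Multiset.toFinset_card_le _).trans (Polynomial.card_roots' q)

end

end Pool.Agent.T9h56.TG
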