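import Pool.Agent.T9h20.TG.Spec

/-!
# Group TG, piece O: one variable
-/

set_option autoImplicit false

open MeasureTheory Set Filter Topology

namespace Pool.Agent.T9h56.TG

open Pool.Agent.T9h20.TG

theorem sOne (hL : SLag) : SOne := by
  classical
  intro ι _ p v d ρ hρ hρ1 hdeg
  obtain ⟨N, hNdef⟩ : ∃ N : ℕ, N = Fintype.card ι * d + 1 := ⟨_, rfl⟩
  have hNpos : (0 : ℝ) < N := by rw [hNdef]; positivity
  have hNcast : ((Fintype.card ι : ℝ) * d + 1) = N := by rw [hNdef]; push_cast; ring
  rw [hNcast]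
  have hd1 : (0 : ℝ) < (d + 1) * (3 * N / ρ) ^ d := by positivity
  obtain ⟨pt, hpt⟩ : ∃ pt : ℕ → ℝ, ∀ l, pt l = 1 + ρ * l / N := ⟨fun l => 1 + ρ * l / N, fun _ => rfl⟩
  have hlt : ∀ l ∈ Finset.range N, 1 ≤ pt l ∧ pt l ≤ 1 + ρ := by
    intro l hl
    rw [Finset.mem_range] at hl
    have h1 : (l : ℝ) ≤ N := by exact_mod_cast hl.le
    rw [hpt]
    constructor
    · have : 0 ≤ ρ * l / N := by positivity
      linarith
    · have : ρ * l / N ≤ ρ := by
        rw [div_le_iff₀ hNpos]
        exact mul_le_mul_of_nonneg_left h1 hρ.le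
      linarith
  have hdist : ∀ l l' : ℕ, l ≠ l' → ρ / N ≤ |pt l - pt l'| := by
    intro l l' hne
    have h1 : pt l - pt l' = ρ / N * ((l : ℝ) - l') := by
      rw [hpt, hpt]
      field_simp
      ring
    have h2 : (1 : ℝ) ≤ |(l : ℝ) - l'| := by
      have h3 : (1 : ℤ) ≤ |(l : ℤ) - l'| := by
        apply Int.one_le_abs
        omega
      exact_mod_cast h3
    have h4 : 0 < ρ / N := by positivity
    rw [h1, abs_mul, abs_of_pos h4]
    nlinarith
  obtain ⟨bad, hbaddef⟩ : ∃ bad : ι → Finset ℕ, ∀ i, bad i = (Finset.range N).filter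
      (fun l => (d + 1) * (3 * N / ρ) ^ d * |(p i).eval (pt l)| < |(p i).coeff (v i)|) :=
    ⟨fun i => _, fun i => rfl⟩
  have hbad : ∀ i, (bad i).card ≤ d := by
    intro i
    by_contra hcon
    push Not at hcon
    obtain ⟨S, hS, hSc⟩ := Finset.exists_subset_card_eq (show d + 1 ≤ (bad i).card by omega)
    have hSne : S.Nonempty := by
      rw [← Finset.card_pos, hSc]
      omega
    obtain ⟨l0, hl0, hmax⟩ := S.exists_max_image (fun l => |(p i).eval (pt l)|) hSne
    have hinj : Set.InjOn pt S := by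
      intro l _ l' _ hll
      by_contra hne
      have h1 := hdist l l' hne
      rw [hll, sub_self, abs_zero] at h1
      have h4 : 0 < ρ / N := by positivity
      linarith
    have hmem : ∀ l ∈ S, l ∈ Finset.range N := by
      intro l hl
      have h1 := hS hl
      rw [hbaddef] at h1
      exact (Finset.mem_filter.mp h1).1
    have key := hL (p i) d (S.image pt) (ρ / N) (|(p i).eval (pt l0)|) (by positivity) (hdeg i)
      (by rw [Finset.card_image_of_injOn hinj, hSc])
      (by
        intro s hs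
        obtain ⟨l, hl, rfl⟩ := Finset.mem_image.mp hs
        have h1 := hlt l (hmem l hl)
        constructor <;> linarith)
      (by
        intro s hs s' hs' hne
        obtain ⟨l, hl, rfl⟩ := Finset.mem_image.mp hs
        obtain ⟨l', hl', rfl⟩ := Finset.mem_image.mp hs'
        exact hdist l l' (fun h => hne (by rw [h])))
      (by
        intro s hs
        obtain ⟨l, hl, rfl⟩ := Finset.mem_image.mp hs
        exact hmax l hl)
      (v i)
    have h2 := hS hl0
    rw [hbaddef] at h2
    have h3 := (Finset.mem_filter.mp h2).2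
    have h4 : 3 / (ρ / N) = 3 * N / ρ := by
      field_simp
    rw [h4] at key
    linarith
  have hU : ((Finset.univ : Finset ι).biUnion bad).card ≤ Fintype.card ι * d := by
    calc ((Finset.univ : Finset ι).biUnion bad).card ≤ ∑ i, (bad i).card :=
          Finset.card_biUnion_le
      _ ≤ ∑ _i : ι, d := Finset.sum_le_sum (fun i _ => hbad i)
      _ = Fintype.card ι * d := by simp
  obtain ⟨l, hl, hlb⟩ : ∃ l ∈ Finset.range N, l ∉ (Finset.univ : Finset ι).biUnion bad := by
    by_contra hcon
    push Not at hcon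
    have h1 := Finset.card_le_card (show Finset.range N ⊆ (Finset.univ : Finset ι).biUnion bad from
      fun l hl => hcon l hl)
    rw [Finset.card_range] at h1
    omega
  refine ⟨pt l, (hlt l hl).1, (hlt l hl).2, fun i => ?_⟩
  by_contra hcon
  push Not at hcon
  apply hlb
  rw [Finset.mem_biUnion]
  refine ⟨i, Finset.mem_univ _, ?_⟩
  rw [hbaddef, Finset.mem_filter]
  exact ⟨hl, hcon⟩

end Pool.Agent.T9h56.TG
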