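import Pool.Agent.T9h56.TG.Taylor

/-!
# Points near a hypersurface come in pairs
-/

set_option autoImplicit false

namespace Pool.Agent.T9h56.TG

open Polynomial Filter Topology

noncomputable section

variable {N n : ℕ}

/-- `k'` is obtained from `k` by a shift in two coordinates -/
def Shift (i₀ j₀ : Fin N) (k k' : Fin N → Fin n) (a b : ℤ) : Prop :=
  (∀ l, l ≠ i₀ → l ≠ j₀ → k' l = k l) ∧ ((k' i₀ : ℕ) : ℤ) = (k i₀ : ℕ) + a ∧
    ((k' j₀ : ℕ) : ℤ) = (k j₀ : ℕ) + b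

theorem cover_aux {ι : Type*} [DecidableEq ι] (I : Finset ι) (r : ι → (Fin N → Fin n) → Prop) :
    cnt (fun k => ∃ v ∈ I, r v k) ≤ ∑ v ∈ I, cnt (r v) := by
  induction I using Finset.induction_on with
  | empty => exact (cnt_eq_zero (by simp)).le.trans (Nat.zero_le _)
  | insert a s ha ih =>
    rw [Finset.sum_insert ha]
    have h4 : cnt (fun k => ∃ v ∈ insert a s, r v k) ≤
        cnt (r a) + cnt (fun k => ∃ v ∈ s, r v k) := by
      refine cnt_or fun k hk => ?_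
      obtain ⟨v, hv, hr⟩ := hk
      rcases Finset.mem_insert.1 hv with h5 | h5
      · exact Or.inl (h5 ▸ hr)
      · exact Or.inr ⟨v, h5, hr⟩
    exact h4.trans (Nat.add_le_add_left ih _)

theorem cnt_cover {ι : Type*} (I : Finset ι) (p q u : (Fin N → Fin n) → Prop)
    (r : ι → (Fin N → Fin n) → Prop) (h : ∀ k, p k → q k ∨ (∃ v ∈ I, r v k) ∨ u k) :
    cnt p ≤ cnt q + ∑ v ∈ I, cnt (r v) + cnt u := by
  classical
  have h1 : cnt p ≤ cnt q + cnt (fun k => (∃ v ∈ I, r v k) ∨ u k) := cnt_or h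
  have h2 : cnt (fun k => (∃ v ∈ I, r v k) ∨ u k) ≤ cnt (fun k => ∃ v ∈ I, r v k) + cnt u :=
    cnt_or fun k hk => hk
  have h3 : cnt (fun k => ∃ v ∈ I, r v k) ≤ ∑ v ∈ I, cnt (r v) := cover_aux I r
  omega

theorem card_others (i₀ j₀ : Fin N) (hij : i₀ ≠ j₀) :
    Fintype.card {l : Fin N // l ≠ i₀ ∧ l ≠ j₀} + 2 = N := by
  classical
  have h1 : Fintype.card {l : Fin N // l ≠ i₀ ∧ l ≠ j₀} =
      (Finset.univ \ {i₀, j₀} : Finset (Fin N)).card := by
    rw [Fintype.card_subtype]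
    congr 1
    ext l
    simp
  rw [h1, Finset.card_sdiff_of_subset (Finset.subset_univ _), Finset.card_pair hij, Finset.card_univ,
    Fintype.card_fin]
  have h2 : 2 ≤ N := by
    have h3 := Finset.card_le_univ ({i₀, j₀} : Finset (Fin N))
    rwa [Finset.card_pair hij, Fintype.card_fin] at h3
  omega

/-- the number of the points without partners -/
theorem card_alone (i₀ j₀ : Fin N) (hij : i₀ ≠ j₀) (hn : 0 < n) (M H : ℕ) (hM : 0 < M) (hH : 0 < H)
    (p : (Fin N → Fin n) → Prop)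
    (h : ∀ k k' : Fin N → Fin n, p k → p k' → ∀ a b : ℤ, Shift i₀ j₀ k k' a b →
      |a| * M ≤ n → |b| * M ≤ n → |b| ≤ H → a = 0 ∧ b = 0) :
    cnt p ≤ n ^ Fintype.card {l : Fin N // l ≠ i₀ ∧ l ≠ j₀} * (M * (M * (n / H + 1))) := by
  classical
  set Ψ : (Fin N → Fin n) → ({l : Fin N // l ≠ i₀ ∧ l ≠ j₀} → Fin n) × Fin M × Fin M × Fin (n / H + 1) :=
    fun k => (fun l => k l.1,
      ⟨M * (k i₀ : ℕ) / n, Nat.div_lt_of_lt_mul (by
        rw [mul_comm n M]
        exact Nat.mul_lt_mul_of_pos_left (k i₀).2 hM)⟩,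
      ⟨M * (k j₀ : ℕ) / n, Nat.div_lt_of_lt_mul (by
        rw [mul_comm n M]
        exact Nat.mul_lt_mul_of_pos_left (k j₀).2 hM)⟩,
      ⟨(k j₀ : ℕ) / H, Nat.lt_succ_of_le (Nat.div_le_div_right (k j₀).2.le)⟩) with hΨ
  have hcard : Fintype.card (({l : Fin N // l ≠ i₀ ∧ l ≠ j₀} → Fin n) × Fin M × Fin M ×
      Fin (n / H + 1)) = n ^ Fintype.card {l : Fin N // l ≠ i₀ ∧ l ≠ j₀} * (M * (M * (n / H + 1))) := by
    simp only [Fintype.card_prod, Fintype.card_fun, Fintype.card_fin]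
  rw [← hcard, ← Finset.card_univ]
  unfold cnt
  refine Finset.card_le_card_of_injOn Ψ (fun _ _ => Finset.mem_coe.2 (Finset.mem_univ _)) ?_
  intro k hk k' hk' hkk
  rw [Finset.mem_coe, Finset.mem_filter] at hk hk'
  have hdiv : ∀ (x y D : ℕ), 0 < D → x / D = y / D → |(y : ℤ) - x| ≤ D := by
    intro x y D hD hxy
    have h1 := Nat.div_add_mod x D
    have h2 := Nat.div_add_mod y D
    have h3 := Nat.mod_lt x hD
    have h4 := Nat.mod_lt y hD
    rw [hxy] at h1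
    rw [abs_le]
    constructor <;> omega
  simp only [hΨ, Prod.mk.injEq, Fin.mk.injEq] at hkk
  obtain ⟨h1, h2, h3, h4⟩ := hkk
  have h5 := hdiv _ _ n hn h2
  have h6 := hdiv _ _ n hn h3
  have h7 := hdiv _ _ H hH h4
  have h8 := h k k' hk.2 hk'.2 ((k' i₀ : ℕ) - (k i₀ : ℕ)) ((k' j₀ : ℕ) - (k j₀ : ℕ))
    ⟨fun l hl hl' => (congrFun h1 ⟨l, hl, hl'⟩).symm, by ring, by ring⟩ (by
      have h9 : |((k' i₀ : ℕ) : ℤ) - (k i₀ : ℕ)| * M =
          |((M * (k' i₀ : ℕ) : ℕ) : ℤ) - ((M * (k i₀ : ℕ) : ℕ) : ℤ)| := by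
        push_cast
        rw [← mul_sub, abs_mul, Nat.abs_cast, mul_comm]
      rw [h9]
      exact h5) (by
      have h9 : |((k' j₀ : ℕ) : ℤ) - (k j₀ : ℕ)| * M =
          |((M * (k' j₀ : ℕ) : ℕ) : ℤ) - ((M * (k j₀ : ℕ) : ℕ) : ℤ)| := by
        push_cast
        rw [← mul_sub, abs_mul, Nat.abs_cast, mul_comm]
      rw [h9]
      exact h6) h7
  obtain ⟨h9, h10⟩ := h8
  funext l
  by_cases hl : l = i₀
  · subst hl
    apply Fin.ext
    omega
  · by_cases hl' : l = j₀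
    · subst hl'
      apply Fin.ext
      omega
    · exact congrFun h1 ⟨l, hl, hl'⟩

/-- **Few points are near a hypersurface without translations in a plane.** -/
theorem pairs (i₀ j₀ : Fin N) (hij : i₀ ≠ j₀) (f : MvPolynomial (Fin N) ℤ) (hf : Irreducible f)
    (hD : ∀ a b : ℤ, (a ≠ 0 ∨ b ≠ 0) → ¬ f ∣ Dv i₀ j₀ f a b) (ε : ℝ) (hε : 0 < ε) (δ : ℝ)
    (hδ : 0 < δ) :
    ∀ᶠ n : ℕ in atTop,
      (cnt (fun k : Fin N → Fin n => ‖vl f k‖ ≤ Real.exp (-(ε * n))) : ℝ) * n ≤ δ * n ^ N := by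
  classical
  obtain ⟨C, hC, htay⟩ := taylor i₀ j₀ hij f
  obtain ⟨δ₀, hδ₀, hbad⟩ := B3_all N f (Dv i₀ j₀ f 1 0) hf (hD 1 0 (Or.inl one_ne_zero)) ε hε
    (δ / 3) (by positivity)
  set L1 := len (Dv i₀ j₀ f 0 1) with hL1
  have hL1' : 0 ≤ L1 := len_nonneg _
  obtain ⟨M, hM⟩ := exists_nat_gt (2 * C / δ₀)
  have hM0 : (0 : ℝ) < M := lt_of_le_of_lt (by positivity) hM
  have hMpos : 0 < M := by exact_mod_cast hM0
  have hMC : 2 * C ≤ δ₀ * M := by
    rw [div_lt_iff₀ hδ₀] at hM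
    linarith
  set K₂ : ℝ := (2 * Real.pi * L1 + δ₀) / δ₀ with hK₂
  have hK₂0 : 0 ≤ K₂ := by positivity
  obtain ⟨H, hH⟩ := exists_nat_gt (12 * (M : ℝ) ^ 2 / δ)
  have hH0 : (0 : ℝ) < H := lt_of_le_of_lt (by positivity) hH
  have hHpos : 0 < H := by exact_mod_cast hH0
  obtain ⟨H', hH'⟩ := exists_nat_gt (K₂ * H + 1 / 2 + H)
  set I : Finset (ℤ × ℤ) := ((Finset.Icc (-(H' : ℤ)) H') ×ˢ (Finset.Icc (-(H' : ℤ)) H')).filter
    (fun v => v.1 ≠ 0 ∨ v.2 ≠ 0) with hI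
  have hIne : ∀ v ∈ I, v.1 ≠ 0 ∨ v.2 ≠ 0 := fun v hv => (Finset.mem_filter.1 hv).2
  -- thresholds
  set δ' : ℝ := δ / (3 * (I.card + 1)) with hδ'
  have hδ'0 : 0 < δ' := by positivity
  have hB3 : ∀ v : ℤ × ℤ, ∃ η : ℝ, 0 < η ∧ (v ∈ I → ∀ᶠ n : ℕ in atTop,
      (cnt (fun k : Fin N → Fin n => ‖vl f k‖ ≤ Real.exp (-(ε * n)) ∧
        ‖vl (Dv i₀ j₀ f v.1 v.2) k‖ ≤ η) : ℝ) * n ≤ δ' * n ^ N) := by
    intro v
    by_cases hv : v ∈ I
    · obtain ⟨η, hη, h1⟩ := B3_all N f (Dv i₀ j₀ f v.1 v.2) hf (hD v.1 v.2 (hIne v hv)) ε hε δ' hδ'0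
      exact ⟨η, hη, fun _ => h1⟩
    · exact ⟨1, one_pos, fun h => absurd h hv⟩
  choose η hη hηB using hB3
  have hpart : ∀ᶠ n : ℕ in atTop, ∀ v ∈ I,
      (cnt (fun k : Fin N → Fin n => ‖vl f k‖ ≤ Real.exp (-(ε * n)) ∧
        ‖vl (Dv i₀ j₀ f v.1 v.2) k‖ ≤ η v) : ℝ) * n ≤ δ' * n ^ N := by
    rw [Filter.eventually_all_finset]
    exact fun v hv => hηB v hv
  have hsmall : ∀ᶠ n : ℕ in atTop, ∀ v ∈ I,
      Real.exp (-(ε * n)) * (n : ℝ) ^ 1 + C * (2 * H') ^ 2 * (1 / n) ≤ η v := by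
    rw [Filter.eventually_all_finset]
    intro v _
    filter_upwards [exp_small hε 1 (η v / 2) (by have := hη v; positivity),
      one_div_small (C * (2 * H') ^ 2) (show 0 < η v / 2 by have := hη v; positivity)] with n h1 h2
    linarith
  filter_upwards [hbad, hpart, hsmall, exp_small hε 1 (δ₀ / 4) (by positivity),
    one_div_small ((M : ℝ) ^ 2) (show 0 < δ / 12 by positivity), eventually_gt_atTop 0]
    with n hn1 hn2 hn3 hn4 hn5 hn0
  have hnR : (0 : ℝ) < n := by exact_mod_cast hn0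
  rw [pow_one] at hn4
  set t : ℝ := Real.exp (-(ε * n)) with ht
  -- the class of the points without partners
  set u : (Fin N → Fin n) → Prop := fun k => ‖vl f k‖ ≤ t ∧ δ₀ < ‖vl (Dv i₀ j₀ f 1 0) k‖ ∧
    ∀ v ∈ I, ¬ ∃ k', Shift i₀ j₀ k k' v.1 v.2 ∧ ‖vl f k'‖ ≤ t with hu
  have hcover := cnt_cover I (fun k : Fin N → Fin n => ‖vl f k‖ ≤ t)
    (fun k => ‖vl f k‖ ≤ t ∧ ‖vl (Dv i₀ j₀ f 1 0) k‖ ≤ δ₀) u
    (fun v k => ‖vl f k‖ ≤ t ∧ ‖vl (Dv i₀ j₀ f v.1 v.2) k‖ ≤ η v) (by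
      intro k hk
      rcases le_or_gt ‖vl (Dv i₀ j₀ f 1 0) k‖ δ₀ with h1 | h1
      · exact Or.inl ⟨hk, h1⟩
      · right
        by_cases h2 : ∃ v ∈ I, ∃ k', Shift i₀ j₀ k k' v.1 v.2 ∧ ‖vl f k'‖ ≤ t
        · left
          obtain ⟨v, hv, k', hs, hk'⟩ := h2
          refine ⟨v, hv, hk, ?_⟩
          have h3 := htay n hn0 k k' v.1 v.2 hs.1 hs.2.1 hs.2.2
          set w := vl (Dv i₀ j₀ f v.1 v.2) k with hw
          have h4 : ‖((2 * Real.pi / n : ℝ) : ℂ) * Complex.I * w‖ ≤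
              t + t + C * ((|(v.1 : ℝ)| + |(v.2 : ℝ)|) / n) ^ 2 := by
            have h5 : ((2 * Real.pi / n : ℝ) : ℂ) * Complex.I * w = (vl f k' - vl f k) -
                (vl f k' - vl f k - ((2 * Real.pi / n : ℝ) : ℂ) * Complex.I * w) := by ring
            rw [h5]
            refine (norm_sub_le _ _).trans (add_le_add ?_ h3)
            exact (norm_sub_le _ _).trans (add_le_add hk' hk)
          rw [norm_mul, norm_mul, Complex.norm_I, mul_one, Complex.norm_real, Real.norm_eq_abs,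
            abs_of_nonneg (by positivity : (0 : ℝ) ≤ 2 * Real.pi / n)] at h4
          have h6 : (|(v.1 : ℝ)| + |(v.2 : ℝ)|) / n ≤ 2 * H' / n := by
            refine div_le_div_of_nonneg_right ?_ hnR.le
            rw [hI, Finset.mem_filter, Finset.mem_product, Finset.mem_Icc, Finset.mem_Icc] at hv
            obtain ⟨⟨⟨h7, h8⟩, ⟨h9, h10⟩⟩, _⟩ := hv
            have h11 : |(v.1 : ℝ)| ≤ H' := by
              rw [abs_le]
              exact ⟨by exact_mod_cast h7, by exact_mod_cast h8⟩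
            have h12 : |(v.2 : ℝ)| ≤ H' := by
              rw [abs_le]
              exact ⟨by exact_mod_cast h9, by exact_mod_cast h10⟩
            linarith
          have h7 : C * ((|(v.1 : ℝ)| + |(v.2 : ℝ)|) / n) ^ 2 ≤ C * (2 * H' / n) ^ 2 :=
            mul_le_mul_of_nonneg_left (pow_le_pow_left₀ (by positivity) h6 2) hC
          have h8 := hn3 v hv
          rw [pow_one] at h8
          have h9 : 2 * Real.pi / n * ‖w‖ ≤ 2 * t + C * (2 * H' / n) ^ 2 := by linarith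
          have h10 : 2 * ‖w‖ ≤ n * (2 * Real.pi / n * ‖w‖) := by
            have h11 : n * (2 * Real.pi / n * ‖w‖) = 2 * Real.pi * ‖w‖ := by field_simp
            rw [h11]
            nlinarith [Real.pi_gt_three, norm_nonneg w]
          have h11 : n * (2 * Real.pi / n * ‖w‖) ≤ n * (2 * t + C * (2 * H' / n) ^ 2) :=
            mul_le_mul_of_nonneg_left h9 hnR.le
          have h12 : n * (2 * t + C * (2 * H' / n) ^ 2) = 2 * (t * n) + C * (2 * H') ^ 2 * (1 / n) := by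
            field_simp
          have h13 : 0 ≤ C * (2 * H') ^ 2 * (1 / (n : ℝ)) := by positivity
          linarith
        · right
          push Not at h2
          exact ⟨hk, h1, fun v hv ⟨k', hs, hk'⟩ => absurd hk' (not_le.2 (h2 v hv k' hs))⟩)
  -- counting the class
  have halone := card_alone i₀ j₀ hij hn0 M H hMpos hHpos u (by
    intro k k' hk hk' a b hs ha hb hbH
    by_contra hcon
    have hne : a ≠ 0 ∨ b ≠ 0 := by
      by_contra h1
      push Not at h1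
      exact hcon h1
    have h3 := htay n hn0 k k' a b hs.1 hs.2.1 hs.2.2
    have h4 := norm_Dv_ge i₀ j₀ f a b k
    rw [← hL1] at h4
    set w := vl (Dv i₀ j₀ f a b) k with hw
    have h5 : ‖((2 * Real.pi / n : ℝ) : ℂ) * Complex.I * w‖ ≤
        t + t + C * ((|(a : ℝ)| + |(b : ℝ)|) / n) ^ 2 := by
      have h5 : ((2 * Real.pi / n : ℝ) : ℂ) * Complex.I * w = (vl f k' - vl f k) -
          (vl f k' - vl f k - ((2 * Real.pi / n : ℝ) : ℂ) * Complex.I * w) := by ring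
      rw [h5]
      refine (norm_sub_le _ _).trans (add_le_add ?_ h3)
      exact (norm_sub_le _ _).trans (add_le_add hk'.1 hk.1)
    rw [norm_mul, norm_mul, Complex.norm_I, mul_one, Complex.norm_real, Real.norm_eq_abs,
      abs_of_nonneg (by positivity : (0 : ℝ) ≤ 2 * Real.pi / n)] at h5
    set A : ℝ := |(a : ℝ)| with hA
    set B : ℝ := |(b : ℝ)| with hB
    have hA0 : 0 ≤ A := abs_nonneg _
    have hB0 : 0 ≤ B := abs_nonneg _
    have haM : A * M ≤ n := by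
      have : ((|a| * M : ℤ) : ℝ) ≤ n := by exact_mod_cast ha
      push_cast at this
      exact this
    have hbM : B * M ≤ n := by
      have : ((|b| * M : ℤ) : ℝ) ≤ n := by exact_mod_cast hb
      push_cast at this
      exact this
    have hbH' : B ≤ H := by
      have : ((|b| : ℤ) : ℝ) ≤ H := by exact_mod_cast hbH
      push_cast at this
      exact this
    -- the quadratic term
    have h6 : n * (C * ((A + B) / n) ^ 2) ≤ δ₀ * (A + B) := by
      have h7 : n * (C * ((A + B) / n) ^ 2) = C * ((A + B) / n) * (A + B) := by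
        field_simp
      rw [h7]
      refine mul_le_mul_of_nonneg_right ?_ (by positivity)
      rw [← mul_div_assoc, div_le_iff₀ hnR]
      have h8 : C * (A + B) * M ≤ δ₀ * n * M := by
        calc C * (A + B) * M = C * (A * M + B * M) := by ring
          _ ≤ C * (n + n) := mul_le_mul_of_nonneg_left (add_le_add haM hbM) hC
          _ = 2 * C * n := by ring
          _ ≤ δ₀ * M * n := mul_le_mul_of_nonneg_right hMC hnR.le
          _ = _ := by ring
      exact le_of_mul_le_mul_right h8 hM0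
    have h7 : 2 * Real.pi * (A * δ₀ - B * L1) ≤ 2 * (t * n) + δ₀ * (A + B) := by
      have h8 : n * (2 * Real.pi / n * ‖w‖) ≤ n * (t + t + C * ((A + B) / n) ^ 2) :=
        mul_le_mul_of_nonneg_left h5 hnR.le
      have h9 : n * (2 * Real.pi / n * ‖w‖) = 2 * Real.pi * ‖w‖ := by field_simp
      rw [h9] at h8
      have h10 : A * δ₀ - B * L1 ≤ ‖w‖ := by
        refine le_trans ?_ h4
        have := mul_le_mul_of_nonneg_left hk.2.1.le hA0
        linarith
      have h11 := mul_le_mul_of_nonneg_left h10 (show 0 ≤ 2 * Real.pi by positivity)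
      linarith
    have h8 : A ≤ K₂ * B + 1 / 2 := by
      have h9 : A * δ₀ ≤ (2 * Real.pi * L1 + δ₀) * B + δ₀ / 2 := by
        have h10 : 2 * (A * δ₀) ≤ 2 * Real.pi * (A * δ₀) - A * δ₀ * 4 := by
          nlinarith [Real.pi_gt_three, mul_nonneg hA0 hδ₀.le]
        nlinarith [mul_nonneg hA0 hδ₀.le, mul_nonneg hB0 hδ₀.le, mul_nonneg hB0 hL1',
          Real.pi_pos]
      have h10 : K₂ * B + 1 / 2 = ((2 * Real.pi * L1 + δ₀) * B + δ₀ / 2) / δ₀ := by
        rw [hK₂]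
        field_simp
      rw [h10, le_div_iff₀ hδ₀]
      exact h9
    -- the shift belongs to the finite set
    have h9 : A ≤ H' := by
      have := mul_le_mul_of_nonneg_left hbH' hK₂0
      linarith
    have h10 : B ≤ H' := by
      have := mul_nonneg hK₂0 hH0.le
      linarith
    have hv : ((a, b) : ℤ × ℤ) ∈ I := by
      rw [hI, Finset.mem_filter, Finset.mem_product, Finset.mem_Icc, Finset.mem_Icc]
      rw [hA, abs_le] at h9
      rw [hB, abs_le] at h10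
      refine ⟨⟨⟨?_, ?_⟩, ⟨?_, ?_⟩⟩, hne⟩
      · exact_mod_cast h9.1
      · exact_mod_cast h9.2
      · exact_mod_cast h10.1
      · exact_mod_cast h10.2
    exact hk.2.2 (a, b) hv ⟨k', hs, hk'.1⟩)
  -- the total
  have hu2 : (cnt u : ℝ) * n ≤ δ / 3 * n ^ N := by
    set m := Fintype.card {l : Fin N // l ≠ i₀ ∧ l ≠ j₀} with hm
    have hm2 : m + 2 = N := card_others i₀ j₀ hij
    have h1 : (cnt u : ℝ) ≤ (n : ℝ) ^ m * (M * (M * ((n / H : ℕ) + 1))) := by
      exact_mod_cast halone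
    have h2 : ((n / H : ℕ) : ℝ) ≤ n / H := Nat.cast_div_le
    have h3 : (cnt u : ℝ) ≤ (n : ℝ) ^ m * (M * (M * (n / H + 1))) := by
      refine h1.trans ?_
      gcongr
    have h4 : (M : ℝ) ^ 2 / H ≤ δ / 12 := by
      rw [div_lt_iff₀ hδ] at hH
      rw [div_le_iff₀ hH0]
      linarith
    calc (cnt u : ℝ) * n ≤ ((n : ℝ) ^ m * (M * (M * (n / H + 1)))) * n :=
          mul_le_mul_of_nonneg_right h3 hnR.le
      _ = (n : ℝ) ^ (m + 2) * (M ^ 2 / H + M ^ 2 * (1 / n)) := by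
          rw [pow_add]
          field_simp
      _ ≤ (n : ℝ) ^ (m + 2) * (δ / 12 + δ / 12) := by
          refine mul_le_mul_of_nonneg_left ?_ (by positivity)
          linarith
      _ ≤ δ / 3 * n ^ N := by
          rw [hm2]
          have : (0 : ℝ) < δ * n ^ N := by positivity
          nlinarith
  have hsum : (∑ v ∈ I, (cnt (fun k : Fin N → Fin n => ‖vl f k‖ ≤ t ∧
      ‖vl (Dv i₀ j₀ f v.1 v.2) k‖ ≤ η v) : ℝ)) * n ≤ δ / 3 * n ^ N := by
    rw [Finset.sum_mul]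
    refine (Finset.sum_le_card_nsmul _ _ (δ' * n ^ N) fun v hv => hn2 v hv).trans ?_
    rw [nsmul_eq_mul, hδ']
    have h1 : (I.card : ℝ) * (δ / (3 * (I.card + 1)) * n ^ N) =
        δ / 3 * n ^ N * (I.card / (I.card + 1)) := by
      field_simp
    rw [h1]
    have h2 : (I.card : ℝ) / (I.card + 1) ≤ 1 := by
      rw [div_le_one (by positivity)]
      linarith
    have h3 : (0 : ℝ) ≤ δ / 3 * n ^ N := by positivity
    nlinarith
  have hcov : (cnt (fun k : Fin N → Fin n => ‖vl f k‖ ≤ t) : ℝ) ≤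
      cnt (fun k : Fin N → Fin n => ‖vl f k‖ ≤ t ∧ ‖vl (Dv i₀ j₀ f 1 0) k‖ ≤ δ₀) +
      ∑ v ∈ I, (cnt (fun k : Fin N → Fin n => ‖vl f k‖ ≤ t ∧
        ‖vl (Dv i₀ j₀ f v.1 v.2) k‖ ≤ η v) : ℝ) + cnt u := by
    rw [← Nat.cast_sum, ← Nat.cast_add, ← Nat.cast_add]
    exact Nat.cast_le.2 hcover
  have hfin := mul_le_mul_of_nonneg_right hcov hnR.le
  rw [add_mul, add_mul] at hfin
  have h5 : δ / 3 * (n : ℝ) ^ N + δ / 3 * n ^ N + δ / 3 * n ^ N = δ * n ^ N := by ring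
  linarith

end

end Pool.Agent.T9h56.TG
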