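import Pool.Agent.T9h56.TG.Pairs

/-!
# The structure of the polynomials with translations in all the coordinate planes
-/

set_option autoImplicit false

namespace Pool.Agent.T9h56.TG

open Polynomial Filter Topology

noncomputable section

variable {N n : ℕ}

theorem coeff_Dv (i₀ j₀ : Fin N) (f : MvPolynomial (Fin N) ℤ) (a b : ℤ) (e : Fin N →₀ ℕ) :
    (Dv i₀ j₀ f a b).coeff e = (a * e i₀ + b * e j₀) * f.coeff e := by
  classical
  induction f using MvPolynomial.induction_on' with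
  | monomial e' c =>
    rw [Dv_monomial, MvPolynomial.coeff_C_mul, MvPolynomial.coeff_monomial]
    split_ifs with h
    · rw [h]
    · simp
  | add f g hf hg =>
    rw [Dv_add, MvPolynomial.coeff_add, MvPolynomial.coeff_add, hf, hg]
    ring

theorem Dv_eq_of_dvd (i₀ j₀ : Fin N) (f : MvPolynomial (Fin N) ℤ) (hf : f ≠ 0) (a b : ℤ)
    (h : f ∣ Dv i₀ j₀ f a b) : ∃ c : ℤ, ∀ e ∈ f.support, a * e i₀ + b * e j₀ = c := by
  classical
  obtain ⟨g, hg⟩ := h
  rcases eq_or_ne g 0 with h0 | h0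
  · refine ⟨0, fun e he => ?_⟩
    have h1 := coeff_Dv i₀ j₀ f a b e
    rw [hg, h0, mul_zero, MvPolynomial.coeff_zero] at h1
    exact (mul_eq_zero.1 h1.symm).resolve_right (MvPolynomial.mem_support_iff.1 he)
  · have h1 : ∀ l, g.degreeOf l = 0 := by
      intro l
      have h2 : (Dv i₀ j₀ f a b).degreeOf l ≤ f.degreeOf l := by
        rw [MvPolynomial.degreeOf_eq_sup, MvPolynomial.degreeOf_eq_sup]
        refine Finset.sup_mono fun e he => ?_
        rw [MvPolynomial.mem_support_iff] at he ⊢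
        rw [coeff_Dv] at he
        exact right_ne_zero_of_mul he
      rw [hg, MvPolynomial.degreeOf_mul_eq hf h0] at h2
      omega
    obtain ⟨c, hc⟩ := eq_C_of_degreeOf h1
    refine ⟨c, fun e he => ?_⟩
    have h3 := coeff_Dv i₀ j₀ f a b e
    rw [hg, hc, mul_comm f, MvPolynomial.coeff_C_mul] at h3
    exact (mul_right_cancel₀ (MvPolynomial.mem_support_iff.1 he) h3).symm

theorem det_zero {a b x y x' y' : ℤ} (h : a ≠ 0 ∨ b ≠ 0) (h1 : a * x + b * y = 0)
    (h2 : a * x' + b * y' = 0) : x * y' = y * x' := by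
  rcases h with h | h
  · apply mul_left_cancel₀ h
    linear_combination y' * h1 - y * h2
  · apply mul_left_cancel₀ h
    linear_combination x * h2 - x' * h1

/-- pairwise parallel integer vectors are multiples of one vector -/
theorem parallel {ι : Type*} (S : Finset ι) (v : ι → Fin N → ℤ)
    (h : ∀ e ∈ S, ∀ e' ∈ S, ∀ i j : Fin N, v e i * v e' j = v e j * v e' i) :
    ∃ (w : Fin N → ℤ) (q : ι → ℤ), ∀ e ∈ S, ∀ l, v e l = q e * w l := by
  by_cases hz : ∀ e ∈ S, ∀ l, v e l = 0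
  · exact ⟨0, 0, fun e he l => by simp [hz e he l]⟩
  · push Not at hz
    obtain ⟨e₁, he₁, l₁, hl₁⟩ := hz
    set I : Ideal ℤ := Ideal.span (Set.range (v e₁)) with hI
    obtain ⟨g, hg⟩ := (IsPrincipalIdealRing.principal I).principal
    have hgI : g ∈ I := by
      rw [hg]
      exact Submodule.mem_span_singleton_self g
    rw [hI, Ideal.span, Submodule.mem_span_range_iff_exists_fun] at hgI
    obtain ⟨u, hu⟩ := hgI
    have hw : ∀ l, ∃ c : ℤ, v e₁ l = c * g := by
      intro l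
      have h1 : v e₁ l ∈ I := Ideal.subset_span ⟨l, rfl⟩
      rw [hg] at h1
      obtain ⟨c, hc⟩ := Submodule.mem_span_singleton.1 h1
      exact ⟨c, by rw [← hc, smul_eq_mul]⟩
    choose w hw using hw
    have hg0 : g ≠ 0 := by
      rintro rfl
      apply hl₁
      rw [hw l₁, mul_zero]
    have huw : ∑ l, u l * w l = 1 := by
      apply mul_right_cancel₀ hg0
      rw [one_mul, Finset.sum_mul]
      conv_rhs => rw [← hu]
      refine Finset.sum_congr rfl fun l _ => ?_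
      rw [smul_eq_mul, hw l]
      ring
    refine ⟨w, fun e => ∑ l, u l * v e l, fun e he j => ?_⟩
    have hmin : ∀ i, v e i * w j = v e j * w i := by
      intro i
      apply mul_right_cancel₀ hg0
      have h1 := h e he e₁ he₁ i j
      rw [hw i, hw j] at h1
      linarith
    calc v e j = (∑ l, u l * w l) * v e j := by rw [huw, one_mul]
      _ = (∑ l, u l * v e l) * w j := by
        rw [Finset.sum_mul, Finset.sum_mul]
        refine Finset.sum_congr rfl fun l _ => ?_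
        linear_combination (- u l) * hmin l

theorem vl_eq_sum (f : MvPolynomial (Fin N) ℤ) (k : Fin N → Fin n) :
    vl f k = ∑ e ∈ f.support, ((f.coeff e : ℤ) : ℂ) * ∏ l, rt n (k l) ^ e l := by
  unfold vl vh
  rw [MvPolynomial.coe_eval₂Hom, MvPolynomial.eval₂_eq']
  rfl

theorem rt_ne_zero (n j : ℕ) : rt n j ≠ 0 := by
  have := norm_rt n j
  intro h
  rw [h, norm_zero] at this
  exact zero_ne_one this

theorem norm_vl_of_parallel (f : MvPolynomial (Fin N) ℤ) (e₀ : Fin N →₀ ℕ) (w : Fin N → ℤ)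
    (q : (Fin N →₀ ℕ) → ℤ) (h : ∀ e ∈ f.support, ∀ l, (e l : ℤ) - e₀ l = q e * w l) :
    ∃ g : ℤ[X], ∀ n : ℕ, 0 < n → ∀ k : Fin N → Fin n, ∃ z : ℂ, z ^ n = 1 ∧
      ‖vl f k‖ = ‖Polynomial.aeval z g‖ := by
  set M : ℤ := ∑ e ∈ f.support, |q e| with hM
  have hMq : ∀ e ∈ f.support, 0 ≤ q e + M := by
    intro e he
    have h1 : |q e| ≤ M := Finset.single_le_sum (f := fun e => |q e|) (fun _ _ => abs_nonneg _) he
    have h2 := neg_abs_le (q e)
    linarith
  refine ⟨∑ e ∈ f.support, Polynomial.C (f.coeff e) * X ^ (q e + M).toNat, fun n hn k => ?_⟩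
  set z : ℂ := ∏ l, rt n (k l) ^ (w l) with hz
  have hzn : z ^ n = 1 := by
    rw [hz, ← Finset.prod_pow]
    refine Finset.prod_eq_one fun l _ => ?_
    rw [← zpow_natCast, ← zpow_mul, mul_comm, zpow_mul, zpow_natCast, rt_pow hn.ne', one_zpow]
  have hz1 : ‖z‖ = 1 := by
    rw [hz, norm_prod]
    refine Finset.prod_eq_one fun l _ => ?_
    rw [norm_zpow, norm_rt, one_zpow]
  have hz0 : z ≠ 0 := by
    intro h0
    rw [h0, norm_zero] at hz1
    exact zero_ne_one hz1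
  refine ⟨z, hzn, ?_⟩
  set A : ℂ := ∏ l, rt n (k l) ^ e₀ l with hA
  have hA1 : ‖A‖ = 1 := norm_prod_rt e₀ k
  have key : ∀ e ∈ f.support, ∏ l, rt n (k l) ^ e l = A * z ^ (q e) := by
    intro e he
    rw [hA, hz, ← Finset.prod_zpow, ← Finset.prod_mul_distrib]
    refine Finset.prod_congr rfl fun l _ => ?_
    rw [← zpow_natCast, ← zpow_natCast, ← zpow_mul, ← zpow_add₀ (rt_ne_zero _ _)]
    congr 1
    have := h e he l
    linarith
  have h1 : vl f k = A * ∑ e ∈ f.support, ((f.coeff e : ℤ) : ℂ) * z ^ (q e) := by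
    rw [vl_eq_sum, Finset.mul_sum]
    refine Finset.sum_congr rfl fun e he => ?_
    rw [key e he]
    ring
  have h2 : Polynomial.aeval z (∑ e ∈ f.support, Polynomial.C (f.coeff e) * X ^ (q e + M).toNat) =
      z ^ M * ∑ e ∈ f.support, ((f.coeff e : ℤ) : ℂ) * z ^ (q e) := by
    rw [map_sum, Finset.mul_sum]
    refine Finset.sum_congr rfl fun e he => ?_
    rw [map_mul, map_pow, Polynomial.aeval_X, Polynomial.aeval_C, ← zpow_natCast,
      Int.toNat_of_nonneg (hMq e he), zpow_add₀ hz0]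
    simp only [algebraMap_int_eq, eq_intCast]
    ring
  rw [h1, h2, norm_mul, norm_mul, hA1, norm_zpow, hz1, one_zpow]

/-- the hypothesis about one variable -/
def OneVar : Prop := ∀ g : ℤ[X], g ≠ 0 → ∀ ε : ℝ, 0 < ε → ∀ᶠ n : ℕ in atTop, ∀ z : ℂ, z ^ n = 1 →
  Polynomial.aeval z g ≠ 0 → Real.exp (-(ε * n)) < ‖Polynomial.aeval z g‖

/-- few tuples with extremely small non-zero values -/
def Q (f : MvPolynomial (Fin N) ℤ) : Prop := ∀ ε : ℝ, 0 < ε → ∀ δ : ℝ, 0 < δ → ∀ᶠ n : ℕ in atTop,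
  (cnt (fun k : Fin N → Fin n => 0 < ‖vl f k‖ ∧ ‖vl f k‖ ≤ Real.exp (-(ε * n))) : ℝ) * n ≤ δ * n ^ N

theorem Q_of_parallel (h1 : OneVar) (f : MvPolynomial (Fin N) ℤ) (e₀ : Fin N →₀ ℕ)
    (w : Fin N → ℤ) (q : (Fin N →₀ ℕ) → ℤ) (h : ∀ e ∈ f.support, ∀ l, (e l : ℤ) - e₀ l = q e * w l) :
    Q f := by
  obtain ⟨g, hg⟩ := norm_vl_of_parallel f e₀ w q h
  intro ε hε δ hδ
  rcases eq_or_ne g 0 with h0 | h0
  · filter_upwards [eventually_gt_atTop 0] with n hn
    refine cnt_zero_le _ (fun k hk => ?_) hδ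
    obtain ⟨z, _, h2⟩ := hg n hn k
    rw [h0, map_zero, norm_zero] at h2
    exact hk.1.ne' h2
  · filter_upwards [eventually_gt_atTop 0, h1 g h0 ε hε] with n hn hn1
    refine cnt_zero_le _ (fun k hk => ?_) hδ
    obtain ⟨z, hz, h2⟩ := hg n hn k
    rw [h2] at hk
    exact absurd hk.2 (not_le.2 (hn1 z hz (norm_pos_iff.1 hk.1)))

theorem Q_irreducible (h1 : OneVar) (f : MvPolynomial (Fin N) ℤ) (hf : Irreducible f) : Q f := by
  by_cases h : ∀ i j : Fin N, i ≠ j → ∃ a b : ℤ, (a ≠ 0 ∨ b ≠ 0) ∧ f ∣ Dv i j f a b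
  · have hne : f.support.Nonempty := by
      rw [Finset.nonempty_iff_ne_empty, Ne, MvPolynomial.support_eq_empty]
      exact hf.ne_zero
    obtain ⟨e₀, he₀⟩ := hne
    obtain ⟨w, q, hwq⟩ := parallel f.support (fun e l => (e l : ℤ) - e₀ l) (by
      intro e he e' he' i j
      rcases eq_or_ne i j with rfl | hij
      · rfl
      · obtain ⟨a, b, hab, hdvd⟩ := h i j hij
        obtain ⟨c, hc⟩ := Dv_eq_of_dvd i j f hf.ne_zero a b hdvd
        have h2 := hc e he
        have h3 := hc e' he'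
        have h4 := hc e₀ he₀
        exact det_zero hab (by linarith) (by linarith))
    exact Q_of_parallel h1 f e₀ w q hwq
  · push Not at h
    obtain ⟨i, j, hij, h2⟩ := h
    intro ε hε δ hδ
    filter_upwards [pairs i j hij f hf (fun a b hab => h2 a b hab) ε hε δ hδ] with n hn
    have h3 : cnt (fun k : Fin N → Fin n => 0 < ‖vl f k‖ ∧ ‖vl f k‖ ≤ Real.exp (-(ε * n))) ≤
        cnt (fun k : Fin N → Fin n => ‖vl f k‖ ≤ Real.exp (-(ε * n))) := cnt_mono fun k hk => hk.2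
    have h4 : (cnt (fun k : Fin N → Fin n => 0 < ‖vl f k‖ ∧ ‖vl f k‖ ≤ Real.exp (-(ε * n))) : ℝ) ≤
        cnt (fun k : Fin N → Fin n => ‖vl f k‖ ≤ Real.exp (-(ε * n))) := by exact_mod_cast h3
    exact le_trans (mul_le_mul_of_nonneg_right h4 (Nat.cast_nonneg n)) hn

theorem Q_mul {f g : MvPolynomial (Fin N) ℤ} (hf : Q f) (hg : Q g) : Q (f * g) := by
  intro ε hε δ hδ
  filter_upwards [hf (ε / 2) (by positivity) (δ / 2) (by positivity),
    hg (ε / 2) (by positivity) (δ / 2) (by positivity)] with n h1 h2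
  have h3 : cnt (fun k : Fin N → Fin n => 0 < ‖vl (f * g) k‖ ∧
      ‖vl (f * g) k‖ ≤ Real.exp (-(ε * n))) ≤
      cnt (fun k : Fin N → Fin n => 0 < ‖vl f k‖ ∧ ‖vl f k‖ ≤ Real.exp (-(ε / 2 * n))) +
      cnt (fun k : Fin N → Fin n => 0 < ‖vl g k‖ ∧ ‖vl g k‖ ≤ Real.exp (-(ε / 2 * n))) := by
    refine cnt_or fun k hk => ?_
    rw [vl_mul, norm_mul] at hk
    have hf0 : 0 < ‖vl f k‖ := pos_of_mul_pos_left hk.1 (norm_nonneg _)
    have hg0 : 0 < ‖vl g k‖ := pos_of_mul_pos_right hk.1 (norm_nonneg _)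
    by_contra hcon
    push Not at hcon
    have h4 := hcon.1 hf0
    have h5 := hcon.2 hg0
    have h6 : Real.exp (-(ε * n)) = Real.exp (-(ε / 2 * n)) * Real.exp (-(ε / 2 * n)) := by
      rw [← Real.exp_add]
      congr 1
      ring
    have h7 : Real.exp (-(ε / 2 * n)) * Real.exp (-(ε / 2 * n)) < ‖vl f k‖ * ‖vl g k‖ :=
      mul_lt_mul'' h4 h5 (Real.exp_pos _).le (Real.exp_pos _).le
    linarith [hk.2]
  have h4 : (cnt (fun k : Fin N → Fin n => 0 < ‖vl (f * g) k‖ ∧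
      ‖vl (f * g) k‖ ≤ Real.exp (-(ε * n))) : ℝ) ≤
      cnt (fun k : Fin N → Fin n => 0 < ‖vl f k‖ ∧ ‖vl f k‖ ≤ Real.exp (-(ε / 2 * n))) +
      cnt (fun k : Fin N → Fin n => 0 < ‖vl g k‖ ∧ ‖vl g k‖ ≤ Real.exp (-(ε / 2 * n))) := by
    exact_mod_cast h3
  have h5 := mul_le_mul_of_nonneg_right h4 (Nat.cast_nonneg (α := ℝ) n)
  rw [add_mul] at h5
  linarith

theorem Q_unit {u : MvPolynomial (Fin N) ℤ} (hu : IsUnit u) : Q u := by
  intro ε hε δ hδ
  filter_upwards [not_small_of_unit hu hε] with n hn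
  exact cnt_zero_le _ (fun k hk => hn k hk.2) hδ

/-- **Few tuples have extremely small non-zero values.** -/
theorem Q_all (h1 : OneVar) (f : MvPolynomial (Fin N) ℤ) (hf : f ≠ 0) : Q f := by
  induction f using WfDvdMonoid.induction_on_irreducible with
  | zero => exact absurd rfl hf
  | unit u hu => exact Q_unit hu
  | mul a i ha hi ih => exact Q_mul (Q_irreducible h1 i hi) (ih ha)

end

end Pool.Agent.T9h56.TG
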