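import Pool.Agent.T9h56.TG.Codim

/-!
# Differences of values at neighbouring tuples of roots of unity
-/

set_option autoImplicit false

namespace Pool.Agent.T9h56.TG

open Polynomial Filter Topology

noncomputable section

variable {N n : ℕ}

theorem exp_taylor (θ : ℝ) :
    ‖Complex.exp ((θ : ℂ) * Complex.I) - 1 - (θ : ℂ) * Complex.I‖ ≤ 3 * θ ^ 2 := by
  rcases le_total |θ| 1 with h | h
  · have h1 : ‖(θ : ℂ) * Complex.I‖ = |θ| := by
      rw [norm_mul, Complex.norm_I, mul_one, Complex.norm_real, Real.norm_eq_abs]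
    have h2 := Complex.norm_exp_sub_one_sub_id_le (x := (θ : ℂ) * Complex.I) (by rw [h1]; exact h)
    rw [h1, sq_abs] at h2
    nlinarith [sq_nonneg θ]
  · have h1 : ‖(θ : ℂ) * Complex.I‖ = |θ| := by
      rw [norm_mul, Complex.norm_I, mul_one, Complex.norm_real, Real.norm_eq_abs]
    have h2 : ‖Complex.exp ((θ : ℂ) * Complex.I) - 1 - (θ : ℂ) * Complex.I‖ ≤ 1 + 1 + |θ| := by
      refine (norm_sub_le _ _).trans ?_
      rw [h1]
      refine add_le_add ((norm_sub_le _ _).trans ?_) le_rfl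
      rw [Complex.norm_exp_ofReal_mul_I, norm_one]
    have h3 : |θ| ^ 2 = θ ^ 2 := sq_abs θ
    nlinarith

/-- the logarithmic derivative in a direction of the plane of two coordinates -/
def Dv (i₀ j₀ : Fin N) (f : MvPolynomial (Fin N) ℤ) (a b : ℤ) : MvPolynomial (Fin N) ℤ :=
  MvPolynomial.C a * (MvPolynomial.X i₀ * MvPolynomial.pderiv i₀ f) +
    MvPolynomial.C b * (MvPolynomial.X j₀ * MvPolynomial.pderiv j₀ f)

theorem Dv_add (i₀ j₀ : Fin N) (f g : MvPolynomial (Fin N) ℤ) (a b : ℤ) :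
    Dv i₀ j₀ (f + g) a b = Dv i₀ j₀ f a b + Dv i₀ j₀ g a b := by
  unfold Dv
  rw [map_add, map_add]
  ring

theorem Dv_monomial (i₀ j₀ : Fin N) (e : Fin N →₀ ℕ) (c : ℤ) (a b : ℤ) :
    Dv i₀ j₀ (MvPolynomial.monomial e c) a b =
      MvPolynomial.C (a * e i₀ + b * e j₀) * MvPolynomial.monomial e c := by
  unfold Dv
  rw [MvPolynomial.X_mul_pderiv_monomial, MvPolynomial.X_mul_pderiv_monomial]
  simp only [nsmul_eq_mul, map_add, map_mul, map_natCast]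
  ring

theorem vl_monomial (e : Fin N →₀ ℕ) (c : ℤ) (k : Fin N → Fin n) :
    vl (MvPolynomial.monomial e c) k = c * ∏ l, rt n (k l) ^ e l := by
  unfold vl vh
  rw [MvPolynomial.coe_eval₂Hom, MvPolynomial.eval₂_monomial, Finsupp.prod_fintype _ _
    (fun _ => pow_zero _)]
  rfl

theorem norm_prod_rt (e : Fin N →₀ ℕ) (k : Fin N → Fin n) : ‖∏ l, rt n (k l) ^ e l‖ = 1 := by
  rw [norm_prod]
  refine Finset.prod_eq_one fun l _ => ?_
  rw [norm_pow, norm_rt, one_pow]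

theorem prod_shift (i₀ j₀ : Fin N) (hij : i₀ ≠ j₀) (e : Fin N →₀ ℕ) (k k' : Fin N → Fin n)
    (a b : ℤ) (h : ∀ l, l ≠ i₀ → l ≠ j₀ → k' l = k l) (h1 : ((k' i₀ : ℕ) : ℤ) = (k i₀ : ℕ) + a)
    (h2 : ((k' j₀ : ℕ) : ℤ) = (k j₀ : ℕ) + b) :
    ∏ l, rt n (k' l) ^ e l = (∏ l, rt n (k l) ^ e l) *
      Complex.exp ((((2 * Real.pi / n) * ((a * e i₀ + b * e j₀ : ℤ) : ℝ) : ℝ) : ℂ) * Complex.I) := by
  classical
  have key : ∀ l, rt n (k' l) ^ e l = rt n (k l) ^ e l *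
      ((if l = i₀ then Complex.exp ((((2 * Real.pi / n) * ((a * e i₀ : ℤ) : ℝ) : ℝ) : ℂ) * Complex.I)
        else 1) * (if l = j₀ then
          Complex.exp ((((2 * Real.pi / n) * ((b * e j₀ : ℤ) : ℝ) : ℝ) : ℂ) * Complex.I) else 1)) := by
    intro l
    by_cases hl : l = i₀
    · subst hl
      rw [if_pos rfl, if_neg hij, mul_one, rt_eq, rt_eq, ← Complex.exp_nat_mul,
        ← Complex.exp_nat_mul, ← Complex.exp_add]
      congr 1
      have h3 : ((k' l : ℕ) : ℝ) = (k l : ℕ) + a := by exact_mod_cast h1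
      rw [h3]
      push_cast
      ring
    · rw [if_neg hl]
      by_cases hl' : l = j₀
      · subst hl'
        rw [if_pos rfl, one_mul, rt_eq, rt_eq, ← Complex.exp_nat_mul,
          ← Complex.exp_nat_mul, ← Complex.exp_add]
        congr 1
        have h3 : ((k' l : ℕ) : ℝ) = (k l : ℕ) + b := by exact_mod_cast h2
        rw [h3]
        push_cast
        ring
      · rw [if_neg hl', h l hl hl', mul_one, mul_one]
  rw [Finset.prod_congr rfl fun l _ => key l, Finset.prod_mul_distrib, Finset.prod_mul_distrib,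
    Finset.prod_ite_eq' Finset.univ i₀, Finset.prod_ite_eq' Finset.univ j₀,
    if_pos (Finset.mem_univ _), if_pos (Finset.mem_univ _), ← Complex.exp_add]
  congr 2
  push_cast
  ring

/-- **The Taylor formula on the grid.** -/
theorem taylor (i₀ j₀ : Fin N) (hij : i₀ ≠ j₀) (f : MvPolynomial (Fin N) ℤ) :
    ∃ C : ℝ, 0 ≤ C ∧ ∀ (n : ℕ), 0 < n → ∀ (k k' : Fin N → Fin n) (a b : ℤ),
      (∀ l, l ≠ i₀ → l ≠ j₀ → k' l = k l) → ((k' i₀ : ℕ) : ℤ) = (k i₀ : ℕ) + a →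
      ((k' j₀ : ℕ) : ℤ) = (k j₀ : ℕ) + b →
      ‖vl f k' - vl f k - ((2 * Real.pi / n : ℝ) : ℂ) * Complex.I * vl (Dv i₀ j₀ f a b) k‖ ≤
        C * ((|(a : ℝ)| + |(b : ℝ)|) / n) ^ 2 := by
  induction f using MvPolynomial.induction_on' with
  | monomial e c =>
    refine ⟨|(c : ℝ)| * (3 * (2 * Real.pi) ^ 2 * ((e i₀ : ℝ) + e j₀) ^ 2), by positivity,
      fun n hn k k' a b h h1 h2 => ?_⟩
    have hnR : (0 : ℝ) < n := by exact_mod_cast hn
    set θ : ℝ := (2 * Real.pi / n) * ((a * e i₀ + b * e j₀ : ℤ) : ℝ) with hθ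
    have h3 : vl (MvPolynomial.monomial e c) k' - vl (MvPolynomial.monomial e c) k -
        ((2 * Real.pi / n : ℝ) : ℂ) * Complex.I * vl (Dv i₀ j₀ (MvPolynomial.monomial e c) a b) k =
        c * (∏ l, rt n (k l) ^ e l) *
          (Complex.exp ((θ : ℂ) * Complex.I) - 1 - (θ : ℂ) * Complex.I) := by
      rw [Dv_monomial, vl_mul, vl_C, vl_monomial, vl_monomial, prod_shift i₀ j₀ hij e k k' a b h h1 h2,
        ← hθ]
      have h4 : (θ : ℂ) = ((2 * Real.pi / n : ℝ) : ℂ) * ((a * e i₀ + b * e j₀ : ℤ) : ℂ) := by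
        rw [hθ]
        push_cast
        ring
      rw [h4]
      ring
    rw [h3, norm_mul, norm_mul, norm_prod_rt, mul_one, Complex.norm_intCast, mul_assoc]
    refine mul_le_mul_of_nonneg_left ((exp_taylor θ).trans ?_) (abs_nonneg _)
    have h5 : |θ| ≤ 2 * Real.pi * ((e i₀ : ℝ) + e j₀) * ((|(a : ℝ)| + |(b : ℝ)|) / n) := by
      rw [hθ, abs_mul, abs_of_nonneg (by positivity : (0 : ℝ) ≤ 2 * Real.pi / n)]
      have h6 : |((a * e i₀ + b * e j₀ : ℤ) : ℝ)| ≤ ((e i₀ : ℝ) + e j₀) * (|(a : ℝ)| + |(b : ℝ)|) := by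
        push_cast
        refine (abs_add_le _ _).trans ?_
        rw [abs_mul, abs_mul, Nat.abs_cast, Nat.abs_cast]
        have := abs_nonneg (a : ℝ)
        have := abs_nonneg (b : ℝ)
        have h7 : (0 : ℝ) ≤ e i₀ := Nat.cast_nonneg _
        have h8 : (0 : ℝ) ≤ e j₀ := Nat.cast_nonneg _
        nlinarith [mul_nonneg h7 (abs_nonneg (b : ℝ)), mul_nonneg h8 (abs_nonneg (a : ℝ))]
      calc 2 * Real.pi / n * |((a * e i₀ + b * e j₀ : ℤ) : ℝ)|
          ≤ 2 * Real.pi / n * (((e i₀ : ℝ) + e j₀) * (|(a : ℝ)| + |(b : ℝ)|)) :=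
            mul_le_mul_of_nonneg_left h6 (by positivity)
        _ = _ := by ring
    have h6 : θ ^ 2 ≤ (2 * Real.pi * ((e i₀ : ℝ) + e j₀) * ((|(a : ℝ)| + |(b : ℝ)|) / n)) ^ 2 := by
      rw [← sq_abs θ]
      exact pow_le_pow_left₀ (abs_nonneg _) h5 2
    calc 3 * θ ^ 2 ≤ 3 * (2 * Real.pi * ((e i₀ : ℝ) + e j₀) * ((|(a : ℝ)| + |(b : ℝ)|) / n)) ^ 2 := by
          linarith
      _ = _ := by ring
  | add f g hf hg =>
    obtain ⟨C₁, hC₁, h1⟩ := hf
    obtain ⟨C₂, hC₂, h2⟩ := hg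
    refine ⟨C₁ + C₂, by positivity, fun n hn k k' a b h h3 h4 => ?_⟩
    have h5 : vl (f + g) k' - vl (f + g) k - ((2 * Real.pi / n : ℝ) : ℂ) * Complex.I *
        vl (Dv i₀ j₀ (f + g) a b) k =
        (vl f k' - vl f k - ((2 * Real.pi / n : ℝ) : ℂ) * Complex.I * vl (Dv i₀ j₀ f a b) k) +
        (vl g k' - vl g k - ((2 * Real.pi / n : ℝ) : ℂ) * Complex.I * vl (Dv i₀ j₀ g a b) k) := by
      rw [Dv_add, vl_add, vl_add, vl_add]
      ring
    rw [h5, add_mul]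
    exact (norm_add_le _ _).trans (add_le_add (h1 n hn k k' a b h h3 h4) (h2 n hn k k' a b h h3 h4))

theorem norm_Dv_ge (i₀ j₀ : Fin N) (f : MvPolynomial (Fin N) ℤ) (a b : ℤ) (k : Fin N → Fin n) :
    |(a : ℝ)| * ‖vl (Dv i₀ j₀ f 1 0) k‖ - |(b : ℝ)| * len (Dv i₀ j₀ f 0 1) ≤
      ‖vl (Dv i₀ j₀ f a b) k‖ := by
  have h1 : Dv i₀ j₀ f a b = MvPolynomial.C a * Dv i₀ j₀ f 1 0 + MvPolynomial.C b * Dv i₀ j₀ f 0 1 := by
    unfold Dv
    simp
  rw [h1, vl_add, vl_mul, vl_mul, vl_C, vl_C]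
  have h2 := norm_sub_norm_le ((a : ℂ) * vl (Dv i₀ j₀ f 1 0) k) (-((b : ℂ) * vl (Dv i₀ j₀ f 0 1) k))
  rw [sub_neg_eq_add, norm_neg, norm_mul, norm_mul, Complex.norm_intCast, Complex.norm_intCast] at h2
  have h3 := mul_le_mul_of_nonneg_left (norm_vl_le (Dv i₀ j₀ f 0 1) k) (abs_nonneg (b : ℝ))
  linarith

end

end Pool.Agent.T9h56.TG
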